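import Mathlib

/-!
# T5 (project of helper291), helper701: weak convergence and test functions of exponential growth
-/

set_option autoImplicit false

namespace Run7.h701.T5

open Finset Filter MeasureTheory Topology ProbabilityTheory

/-- truncation of a real number -/
noncomputable def cl (K x : ℝ) : ℝ := max (-K) (min x K)

theorem cl_cont (K : ℝ) : Continuous (cl K) := by
  unfold cl
  fun_prop

theorem cl_abs {K : ℝ} (hK : 0 < K) (x : ℝ) : |cl K x| ≤ K := by
  unfold cl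
  rw [abs_le]
  refine ⟨le_max_left _ _, max_le (by linarith) (min_le_right _ _)⟩

theorem cl_diff {K : ℝ} (hK : 0 < K) (x : ℝ) : |x - cl K x| ≤ x ^ 2 / K := by
  unfold cl
  rw [le_div_iff₀ hK]
  rcases le_total x K with h1 | h1
  · rw [min_eq_left h1]
    rcases le_total (-K) x with h2 | h2
    · rw [max_eq_right h2, sub_self, abs_zero, zero_mul]
      positivity
    · rw [max_eq_left h2, abs_of_nonpos (by linarith)]
      nlinarith
  · rw [min_eq_right h1, max_eq_right (by linarith), abs_of_nonneg (by linarith)]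
    nlinarith

section

variable {E : Type*} [TopologicalSpace E] [MeasurableSpace E] [OpensMeasurableSpace E]

theorem cl_int {μ : Measure E} [IsProbabilityMeasure μ] {Ψ Φ : E → ℝ} (hΨ : Continuous Ψ)
    (hΨΦ : ∀ y, Ψ y ^ 2 ≤ Φ y) (hΦ : Integrable Φ μ) {K : ℝ} (hK : 0 < K) :
    |(∫ y, Ψ y ∂μ) - ∫ y, cl K (Ψ y) ∂μ| ≤ (∫ y, Φ y ∂μ) / K := by
  have hI : Integrable Ψ μ := by
    refine Integrable.mono' ((integrable_const (1:ℝ)).add hΦ) hΨ.aestronglyMeasurable (Eventually.of_forall fun y => ?_)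
    show ‖Ψ y‖ ≤ 1 + Φ y
    rw [Real.norm_eq_abs]
    have h1 := hΨΦ y
    rw [abs_le]
    constructor <;> nlinarith [sq_nonneg (Ψ y - 1), sq_nonneg (Ψ y + 1)]
  have hI2 : Integrable (fun y => cl K (Ψ y)) μ := by
    refine Integrable.mono' (integrable_const K) ((cl_cont K).comp hΨ).aestronglyMeasurable
      (Eventually.of_forall fun y => ?_)
    rw [Real.norm_eq_abs]
    exact cl_abs hK _
  rw [← integral_sub hI hI2, ← integral_div, ← Real.norm_eq_abs]
  refine norm_integral_le_of_norm_le (f := fun y => Ψ y - cl K (Ψ y)) (hΦ.div_const K)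
    (Eventually.of_forall fun y => ?_)
  rw [Real.norm_eq_abs]
  exact (cl_diff hK _).trans (div_le_div_of_nonneg_right (hΨΦ y) hK.le)

theorem ext_unb {ν : ℕ → ProbabilityMeasure E} {γ : ProbabilityMeasure E} (ht : Tendsto ν atTop (𝓝 γ)) {Ψ Φ : E → ℝ}
    (hΨ : Continuous Ψ) (hΨΦ : ∀ y, Ψ y ^ 2 ≤ Φ y) (hγ : Integrable Φ (γ : Measure E)) (B : ℝ)
    (hν : ∀ᶠ n in atTop, Integrable Φ (ν n : Measure E) ∧ ∫ y, Φ y ∂(ν n : Measure E) ≤ B) :
    Tendsto (fun n => ∫ y, Ψ y ∂(ν n : Measure E)) atTop (𝓝 (∫ y, Ψ y ∂(γ : Measure E))) := by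
  rw [Metric.tendsto_nhds]
  intro ε hε
  set Γ : ℝ := ∫ y, Φ y ∂(γ : Measure E) with hΓ
  have hΓ0 : 0 ≤ Γ := integral_nonneg fun y => (sq_nonneg _).trans (hΨΦ y)
  set K : ℝ := 4 * (|B| + Γ + 1) / ε with hKd
  have hK : 0 < K := by positivity
  have hBK : |B| / K ≤ ε / 4 ∧ Γ / K ≤ ε / 4 := by
    have e : ε / 4 * K = |B| + Γ + 1 := by rw [hKd]; field_simp
    rw [div_le_iff₀ hK, div_le_iff₀ hK, e]
    have := abs_nonneg B
    constructor <;> linarith
  rw [ProbabilityMeasure.tendsto_iff_forall_integral_tendsto] at ht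
  have h4 := ht (BoundedContinuousFunction.ofNormedAddCommGroup (fun y => cl K (Ψ y)) ((cl_cont K).comp hΨ) K
    fun y => by rw [Real.norm_eq_abs]; exact cl_abs hK _)
  have h5 : Tendsto (fun n => ∫ y, cl K (Ψ y) ∂(ν n : Measure E)) atTop (𝓝 (∫ y, cl K (Ψ y) ∂(γ : Measure E))) := h4
  rw [Metric.tendsto_nhds] at h5
  filter_upwards [h5 (ε / 4) (by positivity), hν] with n h6 h7
  have a1 := cl_int (μ := (ν n : Measure E)) hΨ hΨΦ h7.1 hK
  have a2 := cl_int (μ := (γ : Measure E)) hΨ hΨΦ hγ hK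
  rw [Real.dist_eq] at h6 ⊢
  have a3 : (∫ y, Φ y ∂(ν n : Measure E)) / K ≤ ε / 4 :=
    (div_le_div_of_nonneg_right (h7.2.trans (le_abs_self B)) hK.le).trans hBK.1
  have a4 : Γ / K ≤ ε / 4 := hBK.2
  have b1 := abs_le.1 a1
  have b2 := abs_le.1 a2
  have b3 := abs_lt.1 h6
  rw [abs_lt]
  constructor <;> linarith [b1.1, b1.2, b2.1, b2.2, b3.1, b3.2]

end

/-- the exponentials of linear forms are integrable for normal laws -/
theorem gauss_exp {m : ℕ} (γ : Measure (EuclideanSpace ℝ (Fin m))) [IsGaussian γ] (x : Fin m → ℝ) :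
    Integrable (fun y : EuclideanSpace ℝ (Fin m) => Real.exp (∑ j, x j * y j)) γ := by
  set L : StrongDual ℝ (EuclideanSpace ℝ (Fin m)) := ∑ j, x j • EuclideanSpace.proj j with hL
  have h1 : ∀ y, L y = ∑ j, x j * y j := by
    intro y
    rw [hL]
    simp
  have h2 := IsGaussian.map_eq_gaussianReal (μ := γ) L
  have h3 := integrable_exp_mul_gaussianReal (μ := γ[L]) (v := Var[L; γ].toNNReal) 1
  rw [← h2] at h3
  have h4 := (integrable_map_measure (by fun_prop) (by fun_prop)).1 h3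
  refine h4.congr (Eventually.of_forall fun y => ?_)
  show Real.exp (1 * L y) = _
  rw [one_mul, h1]

/-- the majorant -/
noncomputable def maj {m : ℕ} (A : ℝ) (y : EuclideanSpace ℝ (Fin m)) : ℝ :=
  A ^ 2 * ∑ s : Fin m → Bool, Real.exp (∑ j, (if s j then 2 * A else -(2 * A)) * y j)

theorem maj_ge {m : ℕ} {A : ℝ} {Ψ : EuclideanSpace ℝ (Fin m) → ℝ}
    (h : ∀ y, |Ψ y| ≤ A * Real.exp (A * ∑ j, |y j|)) (y : EuclideanSpace ℝ (Fin m)) : Ψ y ^ 2 ≤ maj A y := by
  have h1 : Ψ y ^ 2 ≤ (A * Real.exp (A * ∑ j, |y j|)) ^ 2 := by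
    rw [← sq_abs (Ψ y)]
    exact pow_le_pow_left₀ (abs_nonneg _) (h y) 2
  refine h1.trans ?_
  unfold maj
  rw [mul_pow]
  refine mul_le_mul_of_nonneg_left ?_ (sq_nonneg _)
  have h2 : Real.exp (A * ∑ j, |y j|) ^ 2 =
      Real.exp (∑ j, (if (fun j => decide (0 ≤ y j)) j then 2 * A else -(2 * A)) * y j) := by
    rw [← Real.exp_nat_mul]
    congr 1
    rw [mul_sum, mul_sum]
    refine sum_congr rfl fun j _ => ?_
    by_cases hj : 0 ≤ y j
    · simp only [decide_eq_true_eq, hj, if_true, abs_of_nonneg hj]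
      push_cast
      ring
    · have hj' := lt_of_not_ge hj
      simp only [decide_eq_true_eq, hj, if_false, abs_of_neg hj']
      push_cast
      ring
  rw [h2]
  exact single_le_sum (f := fun s : Fin m → Bool => Real.exp (∑ j, (if s j then 2 * A else -(2 * A)) * y j))
    (fun _ _ => (Real.exp_pos _).le) (mem_univ _)

end Run7.h701.T5
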