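import Pool.Agent.Run7.h701.T5.E
import Pool.Agent.Run7.h701.T5.F

/-!
# T5 (project of helper291), helper701: the convergence in law with test functions of exponential growth
-/

set_option autoImplicit false

namespace Run7.h701.T5

open Finset Filter MeasureTheory Topology Complex ProbabilityTheory
open Pool.Agent.N748.MG Pool.Agent.N748.MJ
open Run7.h291.WN (S_EQC)
open Run7.h651.WN (ES)

variable {m : ℕ}

theorem mgf_mu (k h : Fin m → ℝ) {δ : ℝ} (h1 : δ ≤ 1 / 16) (S : Set ℝ) (x : Fin m → ℝ) :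
    (((∫ y : ES m, Real.exp (∑ j, x j * y j) ∂(mu k h δ S) : ℝ)) : ℂ) =
      II k h δ S (fun j => ((x j : ℝ) : ℂ)) / II k h δ S 0 := by
  have hm : StronglyMeasurable fun y : ES m => Real.exp (∑ j, x j * y j) := by
    refine Continuous.stronglyMeasurable ?_
    fun_prop
  rw [int_mu k h h1 S hm, II_zero, ← integral_complex_ofReal]
  unfold II
  rw [div_eq_inv_mul, ← integral_const_mul]
  refine integral_congr_ae (Eventually.of_forall fun t => ?_)
  show (((SM.G k h δ t / MM k h δ S) • Real.exp (∑ j, x j * yy k h δ t j) : ℝ) : ℂ) =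
      ((MM k h δ S : ℝ) : ℂ)⁻¹ * (((SM.G k h δ t : ℝ) : ℂ) * cexp (∑ j, ((x j : ℝ) : ℂ) * ((yy k h δ t j : ℝ) : ℂ)))
  rw [smul_eq_mul]
  push_cast
  ring

/-- the exponential moments are bounded -/
theorem exp_bd {d : ℝ → ℝ} (hd : Ad d) (k : Fin m → ℝ) {V : ℝ}
    {h : ℝ → Fin m → ℝ} {C : Fin m → Fin m → ℝ}
    (H : ∀ z : Fin m → ℂ, Tendsto (fun T => II k (h T) (d T) (EE V (h T) (d T) T) z /
      II k (h T) (d T) (EE V (h T) (d T) T) 0) atTop (𝓝 (cexp (Qc C z)))) (x : Fin m → ℝ) :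
    ∃ B : ℝ, ∀ᶠ T in atTop, Integrable (fun y : ES m => Real.exp (∑ j, x j * y j)) (mu k (h T) (d T) (EE V (h T) (d T) T)) ∧
      ∫ y : ES m, Real.exp (∑ j, x j * y j) ∂(mu k (h T) (d T) (EE V (h T) (d T) T)) ≤ B := by
  have hx := H (fun j => ((x j : ℝ) : ℂ))
  have h0 : cexp (Qc C fun j => ((x j : ℝ) : ℂ)) ≠ 0 := Complex.exp_ne_zero _
  refine ⟨‖cexp (Qc C fun j => ((x j : ℝ) : ℂ))‖ + 1, ?_⟩
  filter_upwards [hx.eventually_ne h0, hx.norm.eventually_le_const (lt_add_one _),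
    (Ev.of_le (d := 1 / 16) (by norm_num)).app hd] with T g1 g2 g3
  rw [← mgf_mu k (h T) g3] at g1 g2
  constructor
  · by_contra hcon
    rw [integral_undef hcon] at g1
    exact g1 (by simp)
  · rw [Complex.norm_real] at g2
    exact (Real.le_norm_self _).trans g2

/-- the convergence in law -/
theorem weak2 {d : ℝ → ℝ} (hd : Ad d) (k : Fin m → ℝ) {V : ℝ}
    {h : ℝ → Fin m → ℝ} {C : Matrix (Fin m) (Fin m) ℝ} (hC : C.PosSemidef)
    (H0 : ∀ᶠ T in atTop, II k (h T) (d T) (EE V (h T) (d T) T) 0 ≠ 0)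
    (H : ∀ z : Fin m → ℂ, Tendsto (fun T => II k (h T) (d T) (EE V (h T) (d T) T) z /
      II k (h T) (d T) (EE V (h T) (d T) T) 0) atTop (𝓝 (cexp (Qc C z)))) (Ψ : ES m → ℝ) (hΨ : Continuous Ψ)
    (A : ℝ) (hA : ∀ y, |Ψ y| ≤ A * Real.exp (A * ∑ j, |y j|)) :
    Integrable Ψ (multivariateGaussian 0 C) ∧
    Tendsto (fun T => (∫ t in EE V (h T) (d T) T, Ψ (yv k (h T) (d T) t) * SM.G k (h T) (d T) t) /
      MM k (h T) (d T) (EE V (h T) (d T) T)) atTop (𝓝 (∫ y, Ψ y ∂(multivariateGaussian 0 C))) := by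
  classical
  have hγI : Integrable (maj A) (multivariateGaussian 0 C : Measure (ES m)) := by
    unfold maj
    exact (integrable_finsetSum _ fun s _ => gauss_exp _ _).const_mul _
  constructor
  · refine Integrable.mono' ((integrable_const (1:ℝ)).add hγI) hΨ.aestronglyMeasurable (Eventually.of_forall fun y => ?_)
    show ‖Ψ y‖ ≤ 1 + maj A y
    rw [Real.norm_eq_abs]
    have h1 := maj_ge hA y
    rw [abs_le]
    constructor <;> nlinarith [sq_nonneg (Ψ y - 1), sq_nonneg (Ψ y + 1)]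
  refine tendsto_of_seq_tendsto fun u hu => ?_
  set γ : ProbabilityMeasure (ES m) := ⟨multivariateGaussian 0 C, inferInstance⟩ with hγ
  set P : ℝ → Prop := fun T => MM k (h T) (d T) (EE V (h T) (d T) T) ≠ 0 ∧ d T ≤ 1 / 16 with hP
  have hPe : ∀ᶠ T in atTop, P T := by
    filter_upwards [H0, (Ev.of_le (d := 1 / 16) (by norm_num)).app hd] with T hT hd1
    rw [II_zero] at hT
    exact ⟨by exact_mod_cast hT, hd1⟩
  set ν : ℕ → ProbabilityMeasure (ES m) := fun n =>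
    if hn : P (u n) then ⟨mu k (h (u n)) (d (u n)) (EE V (h (u n)) (d (u n)) (u n)), mu_prob k (h (u n)) hn.2 hn.1⟩
    else γ with hν
  have hνe : ∀ᶠ n in atTop, (ν n : Measure (ES m)) = mu k (h (u n)) (d (u n)) (EE V (h (u n)) (d (u n)) (u n)) ∧
      P (u n) := by
    filter_upwards [hu.eventually hPe] with n hn
    have e : ν n = ⟨mu k (h (u n)) (d (u n)) (EE V (h (u n)) (d (u n)) (u n)), mu_prob k (h (u n)) hn.2 hn.1⟩ :=
      dif_pos hn
    rw [e]
    exact ⟨rfl, hn⟩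
  have ht : Tendsto ν atTop (𝓝 γ) := by
    refine ProbabilityMeasure.tendsto_iff_tendsto_charFun.2 fun ξ => ?_
    have e1 : charFun (γ : Measure (ES m)) ξ = cexp (Qc C (fun j => ((ξ j : ℝ) : ℂ) * I)) := by
      rw [hγ]
      show charFun (multivariateGaussian 0 C) ξ = _
      rw [charFun_multivariateGaussian hC, Qc_im C fun j => ξ j, inner_zero_right]
      congr 1
      have e2 : (ξ ⬝ᵥ C.mulVec ξ : ℝ) = ∑ j, ∑ l, ξ j * C j l * ξ l := by
        unfold dotProduct Matrix.mulVec dotProduct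
        refine sum_congr rfl fun j _ => ?_
        rw [mul_sum]
        exact sum_congr rfl fun l _ => by ring
      rw [e2]
      push_cast
      ring
    rw [e1]
    refine ((H (fun j => ((ξ j : ℝ) : ℂ) * I)).comp hu).congr' ?_
    filter_upwards [hνe] with n hn
    rw [hn.1, char_mu k (h (u n)) hn.2.2]
    rfl
  -- the majorant
  choose Bs hBs using fun s : Fin m → Bool => exp_bd (V := V) hd k H (fun j => if s j then 2 * A else -(2 * A))
  have hB : ∀ᶠ n in atTop, Integrable (maj A) (ν n : Measure (ES m)) ∧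
      ∫ y, maj A y ∂(ν n : Measure (ES m)) ≤ A ^ 2 * ∑ s, Bs s := by
    filter_upwards [hνe, hu.eventually (eventually_all.2 hBs)] with n hn hb
    rw [hn.1]
    unfold maj
    refine ⟨(integrable_finsetSum _ fun s _ => (hb s).1).const_mul _, ?_⟩
    rw [integral_const_mul, integral_finsetSum _ fun s _ => (hb s).1]
    exact mul_le_mul_of_nonneg_left (sum_le_sum fun s _ => (hb s).2) (sq_nonneg _)
  have h4 := ext_unb ht hΨ (maj_ge hA) hγI _ hB
  refine Tendsto.congr' ?_ h4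
  filter_upwards [hνe] with n hn
  show ∫ x, Ψ x ∂(ν n : Measure (ES m)) =
    (∫ t in EE V (h (u n)) (d (u n)) (u n), Ψ (yv k (h (u n)) (d (u n)) t) * SM.G k (h (u n)) (d (u n)) t) /
      MM k (h (u n)) (d (u n)) (EE V (h (u n)) (d (u n)) (u n))
  rw [hn.1, int_mu k (h (u n)) hn.2.2 _ hΨ.stronglyMeasurable, ← integral_div]
  refine integral_congr_ae (Eventually.of_forall fun t => ?_)
  show (SM.G k (h (u n)) (d (u n)) t / _) * Ψ _ = _
  ring

/-- the theorem -/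
theorem main2 (hJ : S_JM) (hP : S_POSV) (hZ : S_LZB) (hE : S_EQC) {d : ℝ → ℝ} (hd : Ad d) (k : Fin m → ℝ) {V : ℝ}
    {h : ℝ → Fin m → ℝ} (hh : ∀ᶠ T : ℝ in atTop, ∀ j, |h T j| ≤ T ^ ((1:ℝ) / 2)) {C : Matrix (Fin m) (Fin m) ℝ}
    (hC : ∀ j l, Tendsto (fun T => rr (h T) (d T) j l / Real.log (1 / d T)) atTop (𝓝 (C j l)))
    (hV : ∀ i, |∑ l, k l * C i l| < V) :
    C.PosSemidef ∧ (∀ᶠ T in atTop, 0 < MM k (h T) (d T) (EE V (h T) (d T) T)) ∧
    (∀ z : Fin m → ℂ, Tendsto (fun T => II k (h T) (d T) (EE V (h T) (d T) T) z /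
      II k (h T) (d T) (EE V (h T) (d T) T) 0) atTop (𝓝 (cexp (Qc C z)))) ∧
    ∀ Ψ : ES m → ℝ, Continuous Ψ → (∃ A : ℝ, ∀ y, |Ψ y| ≤ A * Real.exp (A * ∑ j, |y j|)) →
      Integrable Ψ (multivariateGaussian 0 C) ∧
      Tendsto (fun T => (∫ t in EE V (h T) (d T) T, Ψ (yv k (h T) (d T) t) * SM.G k (h T) (d T) t) /
        MM k (h T) (d T) (EE V (h T) (d T) T)) atTop (𝓝 (∫ y, Ψ y ∂(multivariateGaussian 0 C))) := by
  obtain ⟨H0, H⟩ := mgf hJ hP hZ hE hd k hh hC hV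
  obtain ⟨h1, h2, h3, -⟩ := main_of hJ hP hZ hE hd k hh hC hV
  exact ⟨h1, h2, h3, fun Ψ hΨ ⟨A, hA⟩ => weak2 hd k h1 H0 H Ψ hΨ A hA⟩

/-- the hypothesis on the shifts -/
theorem rr_log (hZ : S_LZB) {δ : ℝ} (h0 : 0 < δ) (h1 : δ ≤ 1 / 16) (h : Fin m → ℝ) (j l : Fin m) :
    rr h δ j l = Real.log ‖riemannZeta (1 + 2 * δ + ((h j - h l : ℝ) : ℂ) * I)‖ := by
  have e1 := Run7.h651.WN.LZ_exp hZ h0 h1 (h j - h l)
  have e2 : (((1 + 2 * δ : ℝ) : ℂ) + ((h j - h l : ℝ) : ℂ) * I) = 1 + 2 * δ + ((h j - h l : ℝ) : ℂ) * I := by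
    push_cast; ring
  rw [e2] at e1
  rw [← e1, Real.log_exp]
  rfl

end Run7.h701.T5
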