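import Pool.Agent.Run7.h651.WN.LAW5

/-!
# T5 (project of helper291), helper701: the law of the shifts in the shifted moment measures, algebra
-/

set_option autoImplicit false

namespace Run7.h701.T5

open Finset Filter MeasureTheory Topology Complex
open Pool.Agent.N748.MG Pool.Agent.N748.MJ
open Run7.h651.WN (ES)

variable {m : ℕ}

/-- the real parts of the logarithms of zeta -/
noncomputable def rr (h : Fin m → ℝ) (δ : ℝ) (j l : Fin m) : ℝ := (LZ (1 + 2 * δ) (h j - h l)).re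

theorem rr_symm {δ : ℝ} (h0 : 0 < δ) (h : Fin m → ℝ) (j l : Fin m) : rr h δ j l = rr h δ l j := by
  unfold rr
  have h1 := Run7.h651.WN.LZ_conj h0 (h l - h j)
  rw [neg_sub] at h1
  rw [h1, Complex.conj_re]

theorem rr_abs (hZ : S_LZB) {δ : ℝ} (h0 : 0 < δ) (h1 : δ ≤ 1 / 16) (h : Fin m → ℝ) (j l : Fin m) :
    |rr h δ j l| ≤ Real.log (1 / δ) :=
  (Complex.abs_re_le_norm _).trans (hZ δ h0 h1 _).1

/-- the centre -/
noncomputable def ctr (k h : Fin m → ℝ) (δ : ℝ) (j : Fin m) : ℝ := ∑ l, k l * rr h δ j l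

/-- the scale -/
noncomputable def sc (δ : ℝ) : ℝ := √(Real.log (1 / δ) / 2)

theorem sc_pos {δ : ℝ} (h0 : 0 < δ) (h1 : δ ≤ 1 / 16) : 0 < sc δ := by
  have := log_inv_ge h0 h1
  exact Real.sqrt_pos.2 (by linarith)

theorem sc_sq {δ : ℝ} (h0 : 0 < δ) (h1 : δ ≤ 1 / 16) : sc δ * sc δ = Real.log (1 / δ) / 2 := by
  have := log_inv_ge h0 h1
  exact Real.mul_self_sqrt (by linarith)

/-- the normalised logarithms -/
noncomputable def yy (k h : Fin m → ℝ) (δ t : ℝ) (j : Fin m) : ℝ :=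
  (Real.log (mz δ (t + h j)) - ctr k h δ j) / sc δ

/-- the exponents -/
noncomputable def bb (k : Fin m → ℝ) (δ : ℝ) (z : Fin m → ℂ) (j : Fin m) : ℂ := (k j : ℂ) + z j / (2 * sc δ : ℝ)

/-- the quadratic form -/
noncomputable def qf (h : Fin m → ℝ) (δ : ℝ) (z : Fin m → ℂ) : ℂ :=
  ∑ j, ∑ l, z j * z l * ((rr h δ j l / (2 * Real.log (1 / δ)) : ℝ) : ℂ)

/-- the linear form -/
noncomputable def lf (k h : Fin m → ℝ) (δ : ℝ) (z : Fin m → ℂ) : ℂ := ∑ j, z j * ((ctr k h δ j / sc δ : ℝ) : ℂ)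

theorem LM_bb {δ : ℝ} (h0 : 0 < δ) (h1 : δ ≤ 1 / 16) (k h : Fin m → ℝ) (z : Fin m → ℂ) :
    LM (bb k δ z) (bb k δ z) h δ = ((SM.Lr k h δ : ℝ) : ℂ) + lf k h δ z + qf h δ z := by
  have hs := sc_pos h0 h1
  have hL : 0 < Real.log (1 / δ) := lt_of_lt_of_le one_pos (log_inv_ge h0 h1)
  have e1 : LM (bb k δ z) (bb k δ z) h δ = ∑ j, ∑ l, (bb k δ z j * bb k δ z l) * ((rr h δ j l : ℝ) : ℂ) := by
    unfold LM
    exact Run7.h651.WN.sym_sum h0 h (fun j l => bb k δ z j * bb k δ z l) fun j l => mul_comm _ _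
  have e2 : ∀ j l, (bb k δ z j * bb k δ z l) * ((rr h δ j l : ℝ) : ℂ) =
      (((k j * k l * rr h δ j l : ℝ) : ℂ) + z j * z l * ((rr h δ j l / (2 * Real.log (1 / δ)) : ℝ) : ℂ)) +
      (z j * ((k l * rr h δ j l / (2 * sc δ) : ℝ) : ℂ) + z l * ((k j * rr h δ l j / (2 * sc δ) : ℝ) : ℂ)) := by
    intro j l
    rw [rr_symm h0 h l j]
    have e3 : 2 * Real.log (1 / δ) = 2 * sc δ * (2 * sc δ) := by
      have := sc_sq h0 h1
      linear_combination -4 * this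
    rw [e3]
    unfold bb
    have hs' : ((sc δ : ℝ) : ℂ) ≠ 0 := by exact_mod_cast hs.ne'
    push_cast
    field_simp
    ring
  have e4 : ∑ j, ∑ l, z l * ((k j * rr h δ l j / (2 * sc δ) : ℝ) : ℂ) =
      ∑ j, ∑ l, z j * ((k l * rr h δ j l / (2 * sc δ) : ℝ) : ℂ) := sum_comm
  have e5 : lf k h δ z = 2 * ∑ j, ∑ l, z j * ((k l * rr h δ j l / (2 * sc δ) : ℝ) : ℂ) := by
    unfold lf ctr
    rw [mul_sum]
    refine sum_congr rfl fun j _ => ?_
    rw [← mul_sum, ← Complex.ofReal_sum, ← sum_div]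
    have hs' : ((sc δ : ℝ) : ℂ) ≠ 0 := by exact_mod_cast hs.ne'
    push_cast
    field_simp
  rw [e1, sum_congr rfl fun j _ => sum_congr rfl fun l _ => e2 j l]
  simp_rw [sum_add_distrib]
  rw [e4, e5]
  unfold SM.Lr qf
  have e6 : (((∑ j, ∑ l, k j * k l * (LZ (1 + 2 * δ) (h j - h l)).re : ℝ)) : ℂ) =
      ∑ j, ∑ l, ((k j * k l * rr h δ j l : ℝ) : ℂ) := by
    rw [Complex.ofReal_sum]
    refine sum_congr rfl fun j _ => ?_
    rw [Complex.ofReal_sum]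
    rfl
  rw [e6]
  ring

/-- the product with the exponents -/
theorem prod_bb {δ : ℝ} (h0 : 0 < δ) (h1 : δ ≤ 1 / 16) (k h : Fin m → ℝ) (z : Fin m → ℂ) {t : ℝ}
    (ht : ∀ j, 0 < mz δ (t + h j)) :
    ∏ j, ZZ (riemannZeta (pw δ (t + h j))) (bb k δ z j) ((fun _ => 0 : Fin m → ℤ) j) =
      cexp (lf k h δ z) * (((SM.G k h δ t : ℝ) : ℂ) * cexp (∑ j, z j * ((yy k h δ t j : ℝ) : ℂ))) := by
  have hs := sc_pos h0 h1
  have hs' : ((sc δ : ℝ) : ℂ) ≠ 0 := by exact_mod_cast hs.ne'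
  have e2 : ∀ j, ZZ (riemannZeta (pw δ (t + h j))) (bb k δ z j) ((fun _ => 0 : Fin m → ℤ) j) =
      ((mz δ (t + h j) ^ (2 * k j) : ℝ) : ℂ) *
        cexp (z j * ((ctr k h δ j / sc δ : ℝ) : ℂ) + z j * ((yy k h δ t j : ℝ) : ℂ)) := by
    intro j
    have hz' : ((‖riemannZeta (pw δ (t + h j))‖ : ℝ) : ℂ) ≠ 0 := by exact_mod_cast (ht j).ne'
    have hp : 0 < ‖riemannZeta (pw δ (t + h j))‖ := ht j
    unfold ZZ
    rw [zpow_zero, mul_one, Complex.cpow_def_of_ne_zero hz', ← Complex.ofReal_log hp.le,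
      Real.rpow_def_of_pos (ht j), Complex.ofReal_exp, ← Complex.exp_add]
    congr 1
    unfold bb yy mz
    push_cast
    field_simp
    ring
  rw [prod_congr rfl fun j _ => e2 j, prod_mul_distrib, ← Complex.exp_sum, sum_add_distrib, Complex.exp_add]
  unfold SM.G lf
  push_cast
  ring

/-- the basic identity -/
theorem int_bb {δ : ℝ} (h0 : 0 < δ) (h1 : δ ≤ 1 / 16) (k h : Fin m → ℝ) (z : Fin m → ℂ) {N : Set ℝ}
    (hN : MeasurableSet N) (hz : ∀ t ∈ N, ∀ j, 0 < mz δ (t + h j)) :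
    ∫ t in N, ∏ j, ZZ (riemannZeta (pw δ (t + h j))) (bb k δ z j) ((fun _ => 0 : Fin m → ℤ) j) =
      cexp (lf k h δ z) * ∫ t in N, ((SM.G k h δ t : ℝ) : ℂ) * cexp (∑ j, z j * ((yy k h δ t j : ℝ) : ℂ)) := by
  rw [← integral_const_mul]
  exact setIntegral_congr_fun hN fun t ht => prod_bb h0 h1 k h z (hz t ht)

end Run7.h701.T5
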