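import Pool.Agent.Run7.h701.T5.A

/-!
# T5 (project of helper291), helper701: pointwise estimates
-/

set_option autoImplicit false

namespace Run7.h701.T5

open Finset Filter MeasureTheory Topology Complex
open Pool.Agent.N748.MG Pool.Agent.N748.MJ

variable {m : ℕ}

/-- the limiting quadratic form -/
noncomputable def Qc (C : Fin m → Fin m → ℝ) (z : Fin m → ℂ) : ℂ := ∑ j, ∑ l, z j * z l * ((C j l / 2 : ℝ) : ℂ)

/-- the integral over a set -/
noncomputable def II (k h : Fin m → ℝ) (δ : ℝ) (S : Set ℝ) (z : Fin m → ℂ) : ℂ :=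
  ∫ t in S, ((SM.G k h δ t : ℝ) : ℂ) * cexp (∑ j, z j * ((yy k h δ t j : ℝ) : ℂ))

theorem main_N {δ X : ℝ} (h0 : 0 < δ) (h1 : δ ≤ 1 / 16) (hX : 0 < X) {k h : Fin m → ℝ} {z : Fin m → ℂ} {N : Set ℝ}
    (hN : MeasurableSet N) (hz : ∀ t ∈ N, ∀ j, 0 < mz δ (t + h j)) {C : Fin m → Fin m → ℝ} {a Ca ε ρ B : ℝ} {ab : ℂ}
    (ha0 : 0 ≤ a) (ha : a ≤ Ca) (hρ1 : ρ ≤ 1)
    (e1 : ‖Complex.exp (-(LM (bb k δ z) (bb k δ z) h δ)) *
      (∫ t in N, ∏ j, ZZ (riemannZeta (pw δ (t + h j))) (bb k δ z j) ((fun _ => 0 : Fin m → ℤ) j)) - X * ab‖ ≤ ε * X)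
    (e2 : ‖ab - a‖ ≤ ε) (e3 : ‖qf h δ z‖ ≤ B) (e4 : ‖qf h δ z - Qc C z‖ ≤ ρ) :
    ‖((Real.exp (-(SM.Lr k h δ)) : ℝ) : ℂ) * II k h δ N z - X * a * cexp (Qc C z)‖ ≤
      (Real.exp B * (2 * ε) + Ca * (Real.exp B * (2 * ρ))) * X := by
  rw [int_bb h0 h1 k h z hN hz] at e1
  set J : ℂ := II k h δ N z with hJ
  have hXc : ‖(X : ℂ)‖ = X := by rw [Complex.norm_real, Real.norm_of_nonneg hX.le]
  have f1 : ((Real.exp (-(SM.Lr k h δ)) : ℝ) : ℂ) * J =
      cexp (qf h δ z) * (cexp (-(LM (bb k δ z) (bb k δ z) h δ)) * (cexp (lf k h δ z) * J)) := by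
    rw [← mul_assoc (cexp (-(LM (bb k δ z) (bb k δ z) h δ))), ← mul_assoc, ← Complex.exp_add, ← Complex.exp_add,
      LM_bb h0 h1, Complex.ofReal_exp]
    congr 2
    push_cast
    ring
  have f2 : ((Real.exp (-(SM.Lr k h δ)) : ℝ) : ℂ) * J - X * a * cexp (Qc C z) =
      cexp (qf h δ z) * (cexp (-(LM (bb k δ z) (bb k δ z) h δ)) * (cexp (lf k h δ z) * J) - X * ab) +
      cexp (qf h δ z) * (X * (ab - a)) + X * a * (cexp (qf h δ z) * (1 - cexp (Qc C z - qf h δ z))) := by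
    have : cexp (qf h δ z) * (1 - cexp (Qc C z - qf h δ z)) = cexp (qf h δ z) - cexp (Qc C z) := by
      rw [mul_sub, mul_one, ← Complex.exp_add]
      congr 2
      ring
    rw [this, f1]
    ring
  have f3 : ‖cexp (qf h δ z)‖ ≤ Real.exp B := by
    rw [Complex.norm_exp]
    exact Real.exp_le_exp.2 ((Complex.re_le_norm _).trans e3)
  have f4 : ‖1 - cexp (Qc C z - qf h δ z)‖ ≤ 2 * ρ := by
    have g1 : ‖Qc C z - qf h δ z‖ ≤ ρ := by rw [norm_sub_rev]; exact e4
    have g2 := Complex.norm_exp_sub_one_le (g1.trans hρ1)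
    rw [norm_sub_rev]
    linarith
  have hε : 0 ≤ ε := (norm_nonneg _).trans e2
  have hρ0 : 0 ≤ ρ := (norm_nonneg _).trans e4
  rw [f2]
  refine (norm_add_le _ _).trans ?_
  have g1 : ‖cexp (qf h δ z) * (cexp (-(LM (bb k δ z) (bb k δ z) h δ)) * (cexp (lf k h δ z) * J) - X * ab) +
      cexp (qf h δ z) * (X * (ab - a))‖ ≤ Real.exp B * (2 * ε) * X := by
    refine (norm_add_le _ _).trans ?_
    rw [norm_mul, norm_mul, norm_mul (X : ℂ), hXc]
    have q1 := mul_le_mul f3 e1 (norm_nonneg _) (Real.exp_pos _).le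
    have q2 := mul_le_mul f3 (mul_le_mul_of_nonneg_left e2 hX.le) (by positivity) (Real.exp_pos _).le
    calc _ ≤ Real.exp B * (ε * X) + Real.exp B * (X * ε) := add_le_add q1 q2
      _ = _ := by ring
  have g2 : ‖X * a * (cexp (qf h δ z) * (1 - cexp (Qc C z - qf h δ z)))‖ ≤ Ca * (Real.exp B * (2 * ρ)) * X := by
    rw [norm_mul, norm_mul, norm_mul, hXc, Complex.norm_real, Real.norm_of_nonneg ha0]
    calc X * a * (‖cexp (qf h δ z)‖ * ‖1 - cexp (Qc C z - qf h δ z)‖) ≤ X * Ca * (Real.exp B * (2 * ρ)) := by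
          refine mul_le_mul (mul_le_mul_of_nonneg_left ha hX.le) (mul_le_mul f3 f4 (norm_nonneg _) (Real.exp_pos _).le)
            (by positivity) (by have := ha0.trans ha; positivity)
      _ = _ := by ring
  linarith

/-- comparison of two sets -/
theorem cmpC {f : ℝ → ℂ} {g G : ℝ → ℝ} {N E : Set ℝ} {T a b v : ℝ} (hN : MeasurableSet N) (hE : MeasurableSet E)
    (hET : E ⊆ Set.Icc 0 T) (hfg : ∀ t, ‖f t‖ ≤ g t) (hfm : Measurable f) (hG0 : ∀ t, 0 ≤ G t) (ha : 0 ≤ a)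
    (hb : 0 ≤ b) (hv : 0 ≤ v) (hgN : IntegrableOn g N) (hGN : IntegrableOn G N)
    (h1 : ∀ t ∈ E, g t ≤ b) (h2 : ∀ t ∈ N \ E, g t ≤ a * G t)
    (hvol : volume (Set.Icc 0 T \ N) ≤ ENNReal.ofReal v) :
    ‖(∫ t in E, f t) - ∫ t in N, f t‖ ≤ a * (∫ t in N, G t) + b * v := by
  have hfin : volume (Set.Icc (0 : ℝ) T) < ⊤ := by
    rw [Real.volume_Icc]
    exact ENNReal.ofReal_lt_top
  have hEfin : volume E < ⊤ := (measure_mono hET).trans_lt hfin
  have hfE : IntegrableOn f E := by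
    refine Measure.integrableOn_of_bounded (M := b) hEfin.ne hfm.aestronglyMeasurable ?_
    exact (ae_restrict_iff' hE).2 (Eventually.of_forall fun t ht => (hfg t).trans (h1 t ht))
  have hfN : IntegrableOn f N := Integrable.mono' hgN hfm.aestronglyMeasurable (Eventually.of_forall hfg)
  have e1 : (∫ t in E, f t) = (∫ t in E ∩ N, f t) + ∫ t in E \ N, f t :=
    (integral_inter_add_sdiff hN hfE).symm
  have e2 : (∫ t in N, f t) = (∫ t in N ∩ E, f t) + ∫ t in N \ E, f t :=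
    (integral_inter_add_sdiff hE hfN).symm
  have e3 : (∫ t in E, f t) - ∫ t in N, f t = (∫ t in E \ N, f t) - ∫ t in N \ E, f t := by
    rw [e1, e2, Set.inter_comm N E]
    ring
  have i3 : ‖∫ t in E \ N, f t‖ ≤ b * v := by
    have hv1 : volume (E \ N) ≤ ENNReal.ofReal v :=
      (measure_mono (Set.sdiff_subset_sdiff_left hET)).trans hvol
    have hv2 : volume (E \ N) < ⊤ := hv1.trans_lt ENNReal.ofReal_lt_top
    have h5 := norm_setIntegral_le_of_norm_le_const (f := f) hv2 (C := b) fun t ht => (hfg t).trans (h1 t ht.1)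
    refine h5.trans (mul_le_mul_of_nonneg_left ?_ hb)
    exact ENNReal.toReal_le_of_le_ofReal hv hv1
  have i4 : ‖∫ t in N \ E, f t‖ ≤ a * ∫ t in N, G t := by
    calc ‖∫ t in N \ E, f t‖ ≤ ∫ t in N \ E, a * G t := by
          refine norm_integral_le_of_norm_le ((hGN.mono_set Set.sdiff_subset).const_mul a) ?_
          exact (ae_restrict_iff' (hN.diff hE)).2 (Eventually.of_forall fun t ht => (hfg t).trans (h2 t ht))
      _ = a * ∫ t in N \ E, G t := integral_const_mul _ _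
      _ ≤ a * ∫ t in N, G t := by
          refine mul_le_mul_of_nonneg_left ?_ ha
          exact setIntegral_mono_set hGN (Eventually.of_forall fun t => hG0 t)
            (Set.sdiff_subset.eventuallyLE)
  rw [e3]
  refine (norm_sub_le _ _).trans ?_
  linarith

/-- the weight -/
noncomputable def wt (k h : Fin m → ℝ) (δ : ℝ) (x : Fin m → ℝ) (t : ℝ) : ℝ :=
  SM.G k h δ t * Real.exp (∑ j, x j * yy k h δ t j)

theorem wt_nn (k h : Fin m → ℝ) (δ : ℝ) (x : Fin m → ℝ) (t : ℝ) : 0 ≤ wt k h δ x t :=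
  mul_nonneg (SM.G_nn _ _ _ _) (Real.exp_pos _).le

theorem G_meas (k h : Fin m → ℝ) {δ : ℝ} (h1 : δ ≤ 1 / 16) : Measurable fun t => SM.G k h δ t := by
  unfold SM.G
  exact Finset.measurable_fun_prod _ fun j _ => ((TMA.cont h1).measurable.comp (measurable_id.add_const _)).pow_const _

theorem yy_meas (k h : Fin m → ℝ) {δ : ℝ} (h1 : δ ≤ 1 / 16) (j : Fin m) : Measurable fun t => yy k h δ t j := by
  unfold yy
  exact ((Real.measurable_log.comp ((TMA.cont h1).measurable.comp (measurable_id.add_const _))).sub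
    measurable_const).div_const _

theorem f_meas (k h : Fin m → ℝ) {δ : ℝ} (h1 : δ ≤ 1 / 16) (z : Fin m → ℂ) :
    Measurable fun t => ((SM.G k h δ t : ℝ) : ℂ) * cexp (∑ j, z j * ((yy k h δ t j : ℝ) : ℂ)) := by
  refine (Complex.measurable_ofReal.comp (G_meas k h h1)).mul (Complex.measurable_exp.comp ?_)
  exact Finset.measurable_fun_sum _ fun j _ => (Complex.measurable_ofReal.comp (yy_meas k h h1 j)).const_mul _

theorem f_norm (k h : Fin m → ℝ) (δ : ℝ) (z : Fin m → ℂ) (t : ℝ) :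
    ‖((SM.G k h δ t : ℝ) : ℂ) * cexp (∑ j, z j * ((yy k h δ t j : ℝ) : ℂ))‖ = wt k h δ (fun j => (z j).re) t := by
  rw [norm_mul, Complex.norm_real, Real.norm_of_nonneg (SM.G_nn _ _ _ _), Complex.norm_exp, Complex.re_sum]
  unfold wt
  congr 2
  refine sum_congr rfl fun j _ => ?_
  rw [Complex.mul_re, Complex.ofReal_re, Complex.ofReal_im, mul_zero, sub_zero]

/-- the increments of the quadratic form -/
theorem Lr_add {δ : ℝ} (h0 : 0 < δ) (k h β : Fin m → ℝ) :
    SM.Lr (fun j => k j + β j) h δ = SM.Lr k h δ + 2 * ∑ j, β j * ctr k h δ j + ∑ j, ∑ l, β j * β l * rr h δ j l := by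
  have e1 : ∀ j l, (k j + β j) * (k l + β l) * rr h δ j l =
      k j * k l * rr h δ j l + (β j * (k l * rr h δ j l) + β l * (k j * rr h δ l j)) + β j * β l * rr h δ j l := by
    intro j l
    rw [rr_symm h0 h l j]
    ring
  have e2 : ∑ j, ∑ l, β l * (k j * rr h δ l j) = ∑ j, ∑ l, β j * (k l * rr h δ j l) := sum_comm
  have e3 : ∑ j, β j * ctr k h δ j = ∑ j, ∑ l, β j * (k l * rr h δ j l) := by
    unfold ctr
    exact sum_congr rfl fun j _ => by rw [mul_sum]
  have e4 : SM.Lr (fun j => k j + β j) h δ = ∑ j, ∑ l, (k j + β j) * (k l + β l) * rr h δ j l := rfl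
  have e5 : SM.Lr k h δ = ∑ j, ∑ l, k j * k l * rr h δ j l := rfl
  rw [e4, sum_congr rfl fun j _ => sum_congr rfl fun l _ => e1 j l]
  simp_rw [sum_add_distrib]
  rw [e2, e3, e5]
  ring

theorem quad_le (hZ : S_LZB) {δ : ℝ} (h0 : 0 < δ) (h1 : δ ≤ 1 / 16) (h β : Fin m → ℝ) :
    |∑ j, ∑ l, β j * β l * rr h δ j l| ≤ (∑ j, |β j|) ^ 2 * Real.log (1 / δ) := by
  calc |∑ j, ∑ l, β j * β l * rr h δ j l| ≤ ∑ j, ∑ l, |β j| * |β l| * Real.log (1 / δ) := by
        refine (abs_sum_le_sum_abs _ _).trans (sum_le_sum fun j _ => ?_)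
        refine (abs_sum_le_sum_abs _ _).trans (sum_le_sum fun l _ => ?_)
        rw [abs_mul, abs_mul]
        exact mul_le_mul_of_nonneg_left (rr_abs hZ h0 h1 h j l) (by positivity)
    _ = _ := by
        rw [sq, sum_mul_sum, sum_mul]
        refine sum_congr rfl fun j _ => ?_
        rw [sum_mul]

theorem ctr_le (hZ : S_LZB) {δ : ℝ} (h0 : 0 < δ) (h1 : δ ≤ 1 / 16) (k h : Fin m → ℝ) (j : Fin m) :
    |ctr k h δ j| ≤ (∑ l, |k l|) * Real.log (1 / δ) := by
  unfold ctr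
  rw [sum_mul]
  refine (abs_sum_le_sum_abs _ _).trans (sum_le_sum fun l _ => ?_)
  rw [abs_mul]
  exact mul_le_mul_of_nonneg_left (rr_abs hZ h0 h1 h j l) (abs_nonneg _)

/-- the weights with changed exponents -/
theorem G_add {δ : ℝ} (h0 : 0 < δ) (h1 : δ ≤ 1 / 16) (k h x : Fin m → ℝ) (θ : ℝ) (i : Fin m) {t : ℝ}
    (ht : ∀ j, 0 < mz δ (t + h j)) :
    SM.G (fun j => k j + (x j / (2 * sc δ) + if j = i then θ else 0)) h δ t =
      Real.exp (∑ j, x j * (ctr k h δ j / sc δ)) * (wt k h δ x t * mz δ (t + h i) ^ (2 * θ)) := by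
  have hs := sc_pos h0 h1
  unfold SM.G wt SM.G
  have e1 : ∀ j, mz δ (t + h j) ^ (2 * (k j + (x j / (2 * sc δ) + if j = i then θ else 0))) =
      mz δ (t + h j) ^ (2 * k j) * (Real.exp (x j * (ctr k h δ j / sc δ) + x j * yy k h δ t j) *
        (if j = i then mz δ (t + h i) ^ (2 * θ) else 1)) := by
    intro j
    have e2 : 2 * (k j + (x j / (2 * sc δ) + if j = i then θ else 0)) =
        2 * k j + (x j / sc δ + if j = i then 2 * θ else 0) := by
      split_ifs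
      · field_simp
      · field_simp
        ring
    rw [e2, Real.rpow_add (ht j), Real.rpow_add (ht j)]
    have e3 : mz δ (t + h j) ^ (x j / sc δ) = Real.exp (x j * (ctr k h δ j / sc δ) + x j * yy k h δ t j) := by
      rw [Real.rpow_def_of_pos (ht j)]
      congr 1
      unfold yy
      field_simp
      ring
    rw [e3]
    by_cases hj : j = i
    · subst hj
      rw [if_pos rfl, if_pos rfl]
    · rw [if_neg hj, if_neg hj, Real.rpow_zero]
  rw [prod_congr rfl fun j _ => e1 j, prod_mul_distrib, prod_mul_distrib, ← Real.exp_sum, sum_add_distrib,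
    Real.exp_add, Finset.prod_ite_eq' Finset.univ i, if_pos (Finset.mem_univ i)]
  ring

end Run7.h701.T5
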