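import Pool.Agent.Run7.h701.T5.B

/-!
# T5 (project of helper291), helper701: the exponential moments over the truncated sets
-/

set_option autoImplicit false

namespace Run7.h701.T5

open Finset Filter MeasureTheory Topology Complex
open Pool.Agent.N748.MG Pool.Agent.N748.MJ
open Run7.h291.WN (S_EQC)

variable {m : ℕ}

/-- the truncated set -/
def EE (V : ℝ) (h : Fin m → ℝ) (δ T : ℝ) : Set ℝ :=
  {t : ℝ | t ∈ Set.Icc 0 T ∧ ∀ j, (2 * δ) ^ V ≤ mz δ (t + h j) ∧ mz δ (t + h j) ≤ (2 * δ) ^ (-V)}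

theorem EE_meas (V : ℝ) (h : Fin m → ℝ) {δ : ℝ} (h1 : δ ≤ 1 / 16) (T : ℝ) : MeasurableSet (EE V h δ T) := by
  have hmzc : ∀ j, Continuous fun t : ℝ => mz δ (t + h j) := fun j => (TMA.cont h1).comp (by fun_prop)
  have : EE V h δ T = Set.Icc 0 T ∩ ⋂ j, {t : ℝ | (2 * δ) ^ V ≤ mz δ (t + h j) ∧ mz δ (t + h j) ≤ (2 * δ) ^ (-V)} := by
    ext t
    simp [EE]
  rw [this]
  exact measurableSet_Icc.inter (MeasurableSet.iInter fun j =>
    (measurableSet_le measurable_const (hmzc j).measurable).inter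
      (measurableSet_le (hmzc j).measurable measurable_const))

theorem exp_L {δ : ℝ} (h0 : 0 < δ) (x : ℝ) : Real.exp (x * Real.log (1 / δ)) = δ ^ (-x) := by
  rw [one_div, Real.log_inv, Real.rpow_def_of_pos h0]
  congr 1
  ring

/-- the error of the truncation -/
theorem trunc (hZ : S_LZB) {δ X : ℝ} (h0 : 0 < δ) (h1 : δ ≤ 1 / 16) (hX : 0 < X) {k h : Fin m → ℝ}
    {z : Fin m → ℂ} {N : Set ℝ} (hN : MeasurableSet N) (hNX : N ⊆ Set.Icc 0 X)
    (hz : ∀ t ∈ N, ∀ j, 0 < mz δ (t + h j)) {V R η Ca : ℝ} (hη : 0 < η) (hR : 0 ≤ R) (hzR : ∀ j, ‖z j‖ ≤ R)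
    (hCa : 0 ≤ Ca)
    (hvol : volume (Set.Icc 0 X \ N) ≤ ENNReal.ofReal (δ ^ (2 * (∑ j, |k j|) * |V| + (∑ j, |k j|) ^ 2 + 2) * X))
    -- the integrals with real exponents
    (hI : ∀ κ : Fin m → ℝ, (∀ j, |κ j - k j| ≤ η + R / (2 * sc δ)) → IntegrableOn (fun t => SM.G κ h δ t) N ∧
      Real.exp (-(SM.Lr κ h δ)) * (∫ t in N, SM.G κ h δ t) ≤ Ca * X)
    (hs : (m : ℝ) * R * (|V| + ∑ j, |k j|) ≤ sc δ)
    (hV : ∀ i, η ^ 2 / 2 ≤ 2 * η * V - 2 * η * (|ctr k h δ i| / Real.log (1 / δ)) -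
      (η + m * (R / (2 * sc δ))) ^ 2) :
    ‖((Real.exp (-(SM.Lr k h δ)) : ℝ) : ℂ) * II k h δ (EE V h δ X) z -
      ((Real.exp (-(SM.Lr k h δ)) : ℝ) : ℂ) * II k h δ N z‖ ≤
      (2 ^ (2 * (η * V)) * (2 * m * Ca) * δ ^ (η ^ 2 / 2) + δ) * X := by
  have hsp := sc_pos h0 h1
  have hL1 : 1 ≤ Real.log (1 / δ) := log_inv_ge h0 h1
  set L := Real.log (1 / δ) with hL
  have hL0 : 0 < L := by linarith
  have h2δ : 0 < 2 * δ := by positivity
  set K : ℝ := ∑ j, |k j| with hK
  have hK0 : 0 ≤ K := sum_nonneg fun j _ => abs_nonneg _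
  set x : Fin m → ℝ := fun j => (z j).re with hx
  have hxR : ∀ j, |x j| ≤ R := fun j => (Complex.abs_re_le_norm _).trans (hzR j)
  set κ : Fin m → ℝ → Fin m → ℝ := fun i θ j => k j + (x j / (2 * sc δ) + if j = i then θ else 0) with hκ
  have hκk : ∀ i θ, |θ| ≤ η → ∀ j, |κ i θ j - k j| ≤ η + R / (2 * sc δ) := by
    intro i θ hθ j
    rw [hκ]
    simp only [add_sub_cancel_left]
    refine (abs_add_le _ _).trans ?_
    have g1 : |x j / (2 * sc δ)| ≤ R / (2 * sc δ) := by
      rw [abs_div, abs_of_pos (by positivity : 0 < 2 * sc δ)]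
      exact div_le_div_of_nonneg_right (hxR j) (by positivity)
    have g2 : |if j = i then θ else 0| ≤ η := by
      split_ifs
      · exact hθ
      · rw [abs_zero]; exact hη.le
    linarith
  set lx : ℝ := ∑ j, x j * (ctr k h δ j / sc δ) with hlx
  -- the comparison function
  set GG : ℝ → ℝ := fun t => Real.exp (-lx) * ∑ i, (SM.G (κ i η) h δ t + SM.G (κ i (-η)) h δ t) with hGG
  have hηa : |η| ≤ η := by rw [abs_of_pos hη]
  have hηb : |(-η)| ≤ η := by rw [abs_neg, abs_of_pos hη]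
  have hGI : IntegrableOn GG N := by
    refine Integrable.const_mul ?_ _
    exact integrable_finsetSum _ fun i _ => (hI _ (hκk i η hηa)).1.add (hI _ (hκk i (-η) hηb)).1
  -- the weight is integrable on `N`
  have hwI : IntegrableOn (fun t => wt k h δ x t) N := by
    have hκ0 : ∀ j, |(k j + x j / (2 * sc δ)) - k j| ≤ η + R / (2 * sc δ) := by
      intro j
      rw [add_sub_cancel_left, abs_div, abs_of_pos (by positivity : 0 < 2 * sc δ)]
      have := div_le_div_of_nonneg_right (hxR j) (by positivity : 0 ≤ 2 * sc δ)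
      linarith
    have g1 := ((hI (fun j => k j + x j / (2 * sc δ)) hκ0).1).const_mul (Real.exp (-lx))
    refine (integrableOn_congr_fun (fun t ht => ?_) hN).1 g1
    show Real.exp (-lx) * SM.G (fun j => k j + x j / (2 * sc δ)) h δ t = wt k h δ x t
    rcases Nat.eq_zero_or_pos m with hm | hm
    · subst hm
      simp [SM.G, wt, hlx]
    · have g2 := G_add h0 h1 k h x 0 (⟨0, hm⟩ : Fin m) (hz t ht)
      simp only [ite_self, add_zero, mul_zero, Real.rpow_zero, mul_one] at g2
      rw [g2, ← mul_assoc, ← Real.exp_add, ← hlx, neg_add_cancel, Real.exp_zero, one_mul]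
  have hD0 : 0 ≤ δ ^ (2 * K * |V| + K ^ 2 + 2) * X := by positivity
  have hc := cmpC (f := fun t => ((SM.G k h δ t : ℝ) : ℂ) * cexp (∑ j, z j * ((yy k h δ t j : ℝ) : ℂ)))
    (g := fun t => wt k h δ x t) (G := GG) (N := N) (E := EE V h δ X) (T := X) (a := (2 * δ) ^ (2 * (η * V)))
    (b := Real.exp ((2 * K * |V| + 1) * L)) (v := δ ^ (2 * K * |V| + K ^ 2 + 2) * X) hN (EE_meas V h h1 X)
    (fun t ht => ht.1) (fun t => (f_norm k h δ z t).le) (f_meas k h h1 z)
    (fun t => mul_nonneg (Real.exp_pos _).le (sum_nonneg fun i _ => add_nonneg (SM.G_nn _ _ _ _) (SM.G_nn _ _ _ _)))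
    (Real.rpow_pos_of_pos h2δ _).le (Real.exp_pos _).le hD0 hwI hGI
    (by
      intro t ht
      have hlog : ∀ j, 0 < mz δ (t + h j) ∧ |Real.log (mz δ (t + h j))| ≤ |V| * L := by
        intro j
        obtain ⟨g1, g2⟩ := ht.2 j
        have g0 : 0 < mz δ (t + h j) := lt_of_lt_of_le (Real.rpow_pos_of_pos h2δ _) g1
        refine ⟨g0, ?_⟩
        have l1 := Real.log_le_log (Real.rpow_pos_of_pos h2δ _) g1
        have l2 := Real.log_le_log g0 g2
        rw [Real.log_rpow h2δ] at l1 l2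
        have l3 : |Real.log (2 * δ)| ≤ L := by
          rw [abs_le, hL, one_div, Real.log_inv, neg_neg]
          constructor
          · exact Real.log_le_log h0 (by linarith)
          · have a1 : Real.log (2 * δ) ≤ 0 := Real.log_nonpos h2δ.le (by linarith)
            have a2 : Real.log δ ≤ 0 := Real.log_nonpos h0.le (by linarith)
            linarith
        have l4 : |V * Real.log (2 * δ)| ≤ |V| * L := by
          rw [abs_mul]; exact mul_le_mul_of_nonneg_left l3 (abs_nonneg _)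
        have l5 := abs_le.1 l4
        rw [abs_le]
        constructor <;> nlinarith
      have hyy : ∀ j, |yy k h δ t j| ≤ (|V| + K) * L / sc δ := by
        intro j
        unfold yy
        rw [abs_div, abs_of_pos hsp]
        refine div_le_div_of_nonneg_right ?_ hsp.le
        refine (abs_sub _ _).trans ?_
        have := ctr_le hZ h0 h1 k h j
        have := (hlog j).2
        linarith
      have hG : SM.G k h δ t ≤ Real.exp (2 * K * |V| * L) := by
        unfold SM.G
        have e : 2 * K * |V| * L = ∑ j, 2 * |k j| * (|V| * L) := by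
          rw [hK, mul_sum, sum_mul, sum_mul]
          exact sum_congr rfl fun j _ => by ring
        rw [e, Real.exp_sum]
        refine prod_le_prod (fun j _ => Real.rpow_nonneg (norm_nonneg _) _) fun j _ => ?_
        rw [Real.rpow_def_of_pos (hlog j).1]
        refine Real.exp_le_exp.2 ?_
        refine (le_abs_self _).trans ?_
        rw [abs_mul, abs_mul, abs_two]
        have := mul_le_mul_of_nonneg_right (hlog j).2 (by positivity : 0 ≤ 2 * |k j|)
        linarith
      have hE : Real.exp (∑ j, x j * yy k h δ t j) ≤ Real.exp L := by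
        refine Real.exp_le_exp.2 ?_
        calc ∑ j, x j * yy k h δ t j ≤ ∑ _j : Fin m, R * ((|V| + K) * L / sc δ) := by
              refine sum_le_sum fun j _ => (le_abs_self _).trans ?_
              rw [abs_mul]
              exact mul_le_mul (hxR j) (hyy j) (abs_nonneg _) hR
          _ = (m * R * (|V| + K)) * (L / sc δ) := by
              rw [sum_const, card_univ, Fintype.card_fin, nsmul_eq_mul]
              ring
          _ ≤ sc δ * (L / sc δ) := mul_le_mul_of_nonneg_right hs (by positivity)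
          _ = L := by field_simp
      unfold wt
      calc SM.G k h δ t * Real.exp (∑ j, x j * yy k h δ t j) ≤ Real.exp (2 * K * |V| * L) * Real.exp L :=
            mul_le_mul hG hE (Real.exp_pos _).le (Real.exp_pos _).le
        _ = Real.exp ((2 * K * |V| + 1) * L) := by rw [← Real.exp_add]; congr 1; ring)
    (by
      intro t ht
      obtain ⟨ht1, ht2⟩ := ht
      have hzt := hz t ht1
      have h3 : ∃ i, ¬ ((2 * δ) ^ V ≤ mz δ (t + h i) ∧ mz δ (t + h i) ≤ (2 * δ) ^ (-V)) := by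
        by_contra hcon
        push Not at hcon
        exact ht2 ⟨hNX ht1, hcon⟩
      obtain ⟨i, hi⟩ := h3
      have hi0 := hzt i
      have hA : Real.exp (-lx) * SM.G (κ i η) h δ t = wt k h δ x t * mz δ (t + h i) ^ (2 * η) := by
        have g2 := G_add h0 h1 k h x η i hzt
        rw [← hlx] at g2
        show Real.exp (-lx) * SM.G (fun j => k j + (x j / (2 * sc δ) + if j = i then η else 0)) h δ t = _
        rw [g2, ← mul_assoc, ← Real.exp_add, neg_add_cancel, Real.exp_zero, one_mul]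
      have hB : Real.exp (-lx) * SM.G (κ i (-η)) h δ t = wt k h δ x t * mz δ (t + h i) ^ (2 * (-η)) := by
        have g2 := G_add h0 h1 k h x (-η) i hzt
        rw [← hlx] at g2
        show Real.exp (-lx) * SM.G (fun j => k j + (x j / (2 * sc δ) + if j = i then (-η) else 0)) h δ t = _
        rw [g2, ← mul_assoc, ← Real.exp_add, neg_add_cancel, Real.exp_zero, one_mul]
      have hsum : SM.G (κ i η) h δ t + SM.G (κ i (-η)) h δ t ≤ ∑ i, (SM.G (κ i η) h δ t + SM.G (κ i (-η)) h δ t) :=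
        single_le_sum (f := fun i => SM.G (κ i η) h δ t + SM.G (κ i (-η)) h δ t)
          (fun i _ => add_nonneg (SM.G_nn _ _ _ _) (SM.G_nn _ _ _ _)) (mem_univ i)
      have hw0 := wt_nn k h δ x t
      have hone : 1 ≤ (2 * δ) ^ (2 * (η * V)) * (mz δ (t + h i) ^ (2 * η) + mz δ (t + h i) ^ (2 * (-η))) := by
        have p1 : 0 ≤ mz δ (t + h i) ^ (2 * η) := (Real.rpow_pos_of_pos hi0 _).le
        have p2 : 0 ≤ mz δ (t + h i) ^ (2 * (-η)) := (Real.rpow_pos_of_pos hi0 _).le
        have p3 : 0 < (2 * δ) ^ (2 * (η * V)) := Real.rpow_pos_of_pos h2δ _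
        rw [not_and_or, not_le, not_le] at hi
        rcases hi with hi | hi
        · have q1 : (2 * δ) ^ (2 * (η * V)) * ((2 * δ) ^ V) ^ (2 * (-η)) = 1 := by
            rw [← Real.rpow_mul h2δ.le, ← Real.rpow_add h2δ]
            have : 2 * (η * V) + V * (2 * -η) = 0 := by ring
            rw [this, Real.rpow_zero]
          have q2 : ((2 * δ) ^ V) ^ (2 * (-η)) ≤ mz δ (t + h i) ^ (2 * (-η)) :=
            Real.rpow_le_rpow_of_nonpos hi0 hi.le (by linarith)
          calc (1:ℝ) = (2 * δ) ^ (2 * (η * V)) * ((2 * δ) ^ V) ^ (2 * (-η)) := q1.symm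
            _ ≤ (2 * δ) ^ (2 * (η * V)) * (mz δ (t + h i) ^ (2 * η) + mz δ (t + h i) ^ (2 * (-η))) :=
              mul_le_mul_of_nonneg_left (by linarith) p3.le
        · have q1 : (2 * δ) ^ (2 * (η * V)) * ((2 * δ) ^ (-V)) ^ (2 * η) = 1 := by
            rw [← Real.rpow_mul h2δ.le, ← Real.rpow_add h2δ]
            have : 2 * (η * V) + -V * (2 * η) = 0 := by ring
            rw [this, Real.rpow_zero]
          have q2 : ((2 * δ) ^ (-V)) ^ (2 * η) ≤ mz δ (t + h i) ^ (2 * η) :=
            Real.rpow_le_rpow (Real.rpow_pos_of_pos h2δ _).le hi.le (by linarith)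
          calc (1:ℝ) = (2 * δ) ^ (2 * (η * V)) * ((2 * δ) ^ (-V)) ^ (2 * η) := q1.symm
            _ ≤ (2 * δ) ^ (2 * (η * V)) * (mz δ (t + h i) ^ (2 * η) + mz δ (t + h i) ^ (2 * (-η))) :=
              mul_le_mul_of_nonneg_left (by linarith) p3.le
      calc wt k h δ x t = wt k h δ x t * 1 := (mul_one _).symm
        _ ≤ wt k h δ x t * ((2 * δ) ^ (2 * (η * V)) * (mz δ (t + h i) ^ (2 * η) + mz δ (t + h i) ^ (2 * (-η)))) :=
          mul_le_mul_of_nonneg_left hone hw0
        _ = (2 * δ) ^ (2 * (η * V)) * (Real.exp (-lx) * (SM.G (κ i η) h δ t + SM.G (κ i (-η)) h δ t)) := by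
          rw [mul_add (Real.exp (-lx)), hA, hB]
          ring
        _ ≤ (2 * δ) ^ (2 * (η * V)) * GG t :=
          mul_le_mul_of_nonneg_left (mul_le_mul_of_nonneg_left hsum (Real.exp_pos _).le)
            (Real.rpow_pos_of_pos h2δ _).le)
    hvol
  -- the integrals of the comparison functions
  have hE0 : 0 < Real.exp (-(SM.Lr k h δ)) := Real.exp_pos _
  have hbig : ∀ i θ, |θ| = η → Real.exp (-(SM.Lr k h δ)) * ((2 * δ) ^ (2 * (η * V)) * (Real.exp (-lx) *
      ∫ t in N, SM.G (κ i θ) h δ t)) ≤ 2 ^ (2 * (η * V)) * δ ^ (η ^ 2 / 2) * (Ca * X) := by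
    intro i θ hθ
    have g1 := (hI _ (hκk i θ hθ.le)).2
    have g2 := Lr_add h0 k h (fun j => x j / (2 * sc δ) + if j = i then θ else 0)
    have g3 : ∑ j, (x j / (2 * sc δ) + if j = i then θ else 0) * ctr k h δ j = lx / 2 + θ * ctr k h δ i := by
      have : ∀ j, (x j / (2 * sc δ) + if j = i then θ else 0) * ctr k h δ j =
          x j * (ctr k h δ j / sc δ) / 2 + (if j = i then θ * ctr k h δ i else 0) := by
        intro j
        by_cases hj : j = i
        · subst hj; rw [if_pos rfl, if_pos rfl]; field_simp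
        · rw [if_neg hj, if_neg hj]; field_simp; ring
      rw [sum_congr rfl fun j _ => this j, sum_add_distrib, ← sum_div, Finset.sum_ite_eq' Finset.univ i,
        if_pos (Finset.mem_univ i)]
    have g4 := quad_le hZ h0 h1 h (fun j => x j / (2 * sc δ) + if j = i then θ else 0)
    have g5 : ∑ j, |x j / (2 * sc δ) + if j = i then θ else 0| ≤ η + m * (R / (2 * sc δ)) := by
      calc ∑ j, |x j / (2 * sc δ) + if j = i then θ else 0| ≤ ∑ j, (R / (2 * sc δ) + if j = i then η else 0) := by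
            refine sum_le_sum fun j _ => (abs_add_le _ _).trans (add_le_add ?_ ?_)
            · rw [abs_div, abs_of_pos (by positivity : 0 < 2 * sc δ)]
              exact div_le_div_of_nonneg_right (hxR j) (by positivity)
            · split_ifs
              · exact hθ.le
              · rw [abs_zero]
        _ = _ := by
            rw [sum_add_distrib, sum_const, card_univ, Fintype.card_fin, nsmul_eq_mul,
              Finset.sum_ite_eq' Finset.univ i, if_pos (Finset.mem_univ i)]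
            ring
    have g6 : (∑ j, |x j / (2 * sc δ) + if j = i then θ else 0|) ^ 2 * L ≤ (η + m * (R / (2 * sc δ))) ^ 2 * L :=
      mul_le_mul_of_nonneg_right (pow_le_pow_left₀ (sum_nonneg fun j _ => abs_nonneg _) g5 2) hL0.le
    have g7 : SM.Lr (κ i θ) h δ - SM.Lr k h δ - lx ≤ 2 * η * |ctr k h δ i| + (η + m * (R / (2 * sc δ))) ^ 2 * L := by
      have q1 : SM.Lr (κ i θ) h δ = SM.Lr k h δ + 2 * (lx / 2 + θ * ctr k h δ i) +
          ∑ j, ∑ l, (x j / (2 * sc δ) + if j = i then θ else 0) * (x l / (2 * sc δ) + if l = i then θ else 0) *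
            rr h δ j l := by
        rw [← g3]; exact g2
      have q2 := (abs_le.1 g4).2
      have q3 : θ * ctr k h δ i ≤ η * |ctr k h δ i| := by
        refine (le_abs_self _).trans ?_
        rw [abs_mul, hθ]
      rw [q1]
      linarith
    have g8 : (2 * δ) ^ (2 * (η * V)) = 2 ^ (2 * (η * V)) * Real.exp (-(2 * η * V) * L) := by
      rw [exp_L h0, Real.mul_rpow (by norm_num) h0.le]
      congr 2
      ring
    have g9 : SM.Lr (κ i θ) h δ - SM.Lr k h δ - lx - 2 * η * V * L ≤ -(η ^ 2 / 2) * L := by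
      have q1 := mul_le_mul_of_nonneg_right (hV i) hL0.le
      have q2 : 2 * η * (|ctr k h δ i| / L) * L = 2 * η * |ctr k h δ i| := by field_simp
      nlinarith
    have g10 : 0 ≤ Real.exp (-(SM.Lr (κ i θ) h δ)) * (∫ t in N, SM.G (κ i θ) h δ t) :=
      mul_nonneg (Real.exp_pos _).le (integral_nonneg fun t => SM.G_nn _ _ _ _)
    calc Real.exp (-(SM.Lr k h δ)) * ((2 * δ) ^ (2 * (η * V)) * (Real.exp (-lx) * ∫ t in N, SM.G (κ i θ) h δ t))
        = 2 ^ (2 * (η * V)) * Real.exp (SM.Lr (κ i θ) h δ - SM.Lr k h δ - lx - 2 * η * V * L) *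
          (Real.exp (-(SM.Lr (κ i θ) h δ)) * (∫ t in N, SM.G (κ i θ) h δ t)) := by
          rw [g8]
          have : Real.exp (SM.Lr (κ i θ) h δ - SM.Lr k h δ - lx - 2 * η * V * L) =
              Real.exp (SM.Lr (κ i θ) h δ) * (Real.exp (-(SM.Lr k h δ)) * Real.exp (-lx) *
                Real.exp (-(2 * η * V) * L)) := by
            rw [← Real.exp_add, ← Real.exp_add, ← Real.exp_add]
            congr 1
            ring
          rw [this, Real.exp_neg (SM.Lr (κ i θ) h δ)]
          have hne := (Real.exp_pos (SM.Lr (κ i θ) h δ)).ne'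
          field_simp
      _ ≤ 2 ^ (2 * (η * V)) * Real.exp (-(η ^ 2 / 2) * L) * (Ca * X) := by
          refine mul_le_mul ?_ g1 g10 (by positivity)
          exact mul_le_mul_of_nonneg_left (Real.exp_le_exp.2 g9) (by positivity)
      _ = _ := by
          rw [exp_L h0, neg_neg]
  have hGGi : ∫ t in N, GG t = Real.exp (-lx) * ∑ i, ((∫ t in N, SM.G (κ i η) h δ t) + ∫ t in N, SM.G (κ i (-η)) h δ t) := by
    have hint : ∀ i ∈ (Finset.univ : Finset (Fin m)),
        Integrable (fun t => SM.G (κ i η) h δ t + SM.G (κ i (-η)) h δ t) (volume.restrict N) := fun i _ =>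
      (hI _ (hκk i η hηa)).1.add (hI _ (hκk i (-η) hηb)).1
    rw [hGG, integral_const_mul, integral_finsetSum _ hint]
    congr 1
    exact sum_congr rfl fun i _ => integral_add (hI _ (hκk i η hηa)).1 (hI _ (hκk i (-η) hηb)).1
  have hpart1 : Real.exp (-(SM.Lr k h δ)) * ((2 * δ) ^ (2 * (η * V)) * ∫ t in N, GG t) ≤
      2 ^ (2 * (η * V)) * (2 * m * Ca) * δ ^ (η ^ 2 / 2) * X := by
    rw [hGGi]
    calc Real.exp (-(SM.Lr k h δ)) * ((2 * δ) ^ (2 * (η * V)) * (Real.exp (-lx) *
          ∑ i, ((∫ t in N, SM.G (κ i η) h δ t) + ∫ t in N, SM.G (κ i (-η)) h δ t)))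
        = ∑ i, (Real.exp (-(SM.Lr k h δ)) * ((2 * δ) ^ (2 * (η * V)) * (Real.exp (-lx) *
            ∫ t in N, SM.G (κ i η) h δ t)) +
          Real.exp (-(SM.Lr k h δ)) * ((2 * δ) ^ (2 * (η * V)) * (Real.exp (-lx) *
            ∫ t in N, SM.G (κ i (-η)) h δ t))) := by
          rw [mul_sum, mul_sum, mul_sum]
          refine sum_congr rfl fun i _ => ?_
          ring
      _ ≤ ∑ _i : Fin m, (2 ^ (2 * (η * V)) * δ ^ (η ^ 2 / 2) * (Ca * X) + 2 ^ (2 * (η * V)) * δ ^ (η ^ 2 / 2) * (Ca * X)) :=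
          sum_le_sum fun i _ => add_le_add (hbig i η (abs_of_pos hη)) (hbig i (-η) (by rw [abs_neg, abs_of_pos hη]))
      _ = _ := by
          rw [sum_const, card_univ, Fintype.card_fin, nsmul_eq_mul]
          ring
  have hLr : -(SM.Lr k h δ) ≤ K ^ 2 * L := by
    have q := quad_le hZ h0 h1 h k
    have q2 := (abs_le.1 q).1
    have q3 : SM.Lr k h δ = ∑ j, ∑ l, k j * k l * rr h δ j l := rfl
    rw [q3]
    linarith
  have hpart2 : Real.exp (-(SM.Lr k h δ)) * (Real.exp ((2 * K * |V| + 1) * L) *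
      (δ ^ (2 * K * |V| + K ^ 2 + 2) * X)) ≤ δ * X := by
    have q1 : δ ^ (2 * K * |V| + K ^ 2 + 2) = Real.exp (-(2 * K * |V| + K ^ 2 + 2) * L) := by
      rw [exp_L h0, neg_neg]
    have q2 : δ = Real.exp (-1 * L) := by
      rw [exp_L h0, neg_neg, Real.rpow_one]
    have q3 : Real.exp (-(SM.Lr k h δ)) * (Real.exp ((2 * K * |V| + 1) * L) *
        δ ^ (2 * K * |V| + K ^ 2 + 2)) ≤ Real.exp (-1 * L) := by
      rw [q1, ← Real.exp_add, ← Real.exp_add]
      refine Real.exp_le_exp.2 ?_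
      linarith
    calc _ = (Real.exp (-(SM.Lr k h δ)) * (Real.exp ((2 * K * |V| + 1) * L) *
        δ ^ (2 * K * |V| + K ^ 2 + 2))) * X := by ring
      _ ≤ Real.exp (-1 * L) * X := mul_le_mul_of_nonneg_right q3 hX.le
      _ = δ * X := by rw [← q2]
  rw [← mul_sub, norm_mul, Complex.norm_real, Real.norm_of_nonneg hE0.le]
  have hc' : ‖II k h δ (EE V h δ X) z - II k h δ N z‖ ≤ (2 * δ) ^ (2 * (η * V)) * (∫ t in N, GG t) +
      Real.exp ((2 * K * |V| + 1) * L) * (δ ^ (2 * K * |V| + K ^ 2 + 2) * X) := hc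
  have hfin := mul_le_mul_of_nonneg_left hc' hE0.le
  rw [mul_add] at hfin
  calc _ ≤ _ := hfin
    _ ≤ 2 ^ (2 * (η * V)) * (2 * m * Ca) * δ ^ (η ^ 2 / 2) * X + δ * X := add_le_add hpart1 hpart2
    _ = _ := by ring

end Run7.h701.T5
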