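import Pool.Agent.Run7.h701.T5.C

/-!
# T5 (project of helper291), helper701: the limits of the exponential moments
-/

set_option autoImplicit false

namespace Run7.h701.T5

open Finset Filter MeasureTheory Topology Complex
open Pool.Agent.N748.MG Pool.Agent.N748.MJ
open Run7.h291.WN (S_EQC)

variable {m : ℕ}

theorem L_tend {d : ℝ → ℝ} (hd : Ad d) : Tendsto (fun T => Real.log (1 / d T)) atTop atTop := by
  have h1 : Tendsto d atTop (𝓝[>] 0) := tendsto_nhdsWithin_iff.2 ⟨hd.t0, hd.pos⟩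
  have h2 : Tendsto (fun T => (d T)⁻¹) atTop atTop := tendsto_inv_nhdsGT_zero.comp h1
  simp_rw [one_div]
  exact Real.tendsto_log_atTop.comp h2

theorem sc_tend {d : ℝ → ℝ} (hd : Ad d) : Tendsto (fun T => sc (d T)) atTop atTop := by
  unfold sc
  exact Real.tendsto_sqrt_atTop.comp ((L_tend hd).atTop_div_const (by norm_num))

theorem qf_close {d : ℝ → ℝ} {h : ℝ → Fin m → ℝ} {C : Fin m → Fin m → ℝ}
    (hC : ∀ j l, Tendsto (fun T => rr (h T) (d T) j l / Real.log (1 / d T)) atTop (𝓝 (C j l))) {R ρ : ℝ}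
    (hR : 0 ≤ R) (hρ : 0 < ρ) :
    ∀ᶠ T in atTop, ∀ z : Fin m → ℂ, (∀ j, ‖z j‖ ≤ R) → ‖qf (h T) (d T) z - Qc C z‖ ≤ ρ := by
  have h1 : Tendsto (fun T => ∑ j, ∑ l, R * R * |rr (h T) (d T) j l / Real.log (1 / d T) / 2 - C j l / 2|) atTop (𝓝 0) := by
    have : (0:ℝ) = ∑ _j : Fin m, ∑ _l : Fin m, 0 := by simp
    rw [this]
    refine tendsto_finsetSum _ fun j _ => tendsto_finsetSum _ fun l _ => ?_
    have h2 := (((hC j l).div_const 2).sub_const (C j l / 2)).abs.const_mul (R * R)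
    rw [sub_self, abs_zero, mul_zero] at h2
    exact h2
  filter_upwards [h1.eventually_le_const hρ] with T hT z hz
  refine le_trans ?_ hT
  unfold qf Qc
  rw [← sum_sub_distrib]
  refine (norm_sum_le _ _).trans (sum_le_sum fun j _ => ?_)
  rw [← sum_sub_distrib]
  refine (norm_sum_le _ _).trans (sum_le_sum fun l _ => ?_)
  rw [← mul_sub, ← Complex.ofReal_sub, norm_mul, norm_mul, Complex.norm_real, Real.norm_eq_abs]
  have e : rr (h T) (d T) j l / (2 * Real.log (1 / d T)) = rr (h T) (d T) j l / Real.log (1 / d T) / 2 := by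
    rw [div_div, mul_comm]
  rw [e]
  exact mul_le_mul_of_nonneg_right (mul_le_mul (hz j) (hz l) (norm_nonneg _) hR) (abs_nonneg _)

theorem Qc_le (C : Fin m → Fin m → ℝ) {R : ℝ} (hR : 0 ≤ R) (z : Fin m → ℂ) (hz : ∀ j, ‖z j‖ ≤ R) :
    ‖Qc C z‖ ≤ ∑ j, ∑ l, R * R * |C j l / 2| := by
  unfold Qc
  refine (norm_sum_le _ _).trans (sum_le_sum fun j _ => ?_)
  refine (norm_sum_le _ _).trans (sum_le_sum fun l _ => ?_)
  rw [norm_mul, norm_mul, Complex.norm_real, Real.norm_eq_abs]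
  exact mul_le_mul_of_nonneg_right (mul_le_mul (hz j) (hz l) (norm_nonneg _) hR) (abs_nonneg _)

theorem ctr_tend {d : ℝ → ℝ} (hd : Ad d) {h : ℝ → Fin m → ℝ} {C : Fin m → Fin m → ℝ}
    (hC : ∀ j l, Tendsto (fun T => rr (h T) (d T) j l / Real.log (1 / d T)) atTop (𝓝 (C j l))) (k : Fin m → ℝ)
    (i : Fin m) :
    Tendsto (fun T => |ctr k (h T) (d T) i| / Real.log (1 / d T)) atTop (𝓝 |∑ l, k l * C i l|) := by
  have h1 : Tendsto (fun T => ∑ l, k l * (rr (h T) (d T) i l / Real.log (1 / d T))) atTop (𝓝 (∑ l, k l * C i l)) :=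
    tendsto_finsetSum _ fun l _ => (hC i l).const_mul (k l)
  refine h1.abs.congr' ?_
  filter_upwards [(L_tend hd).eventually_gt_atTop 0] with T hT
  unfold ctr
  rw [← abs_of_pos hT, ← abs_div, abs_of_pos hT, sum_div]
  congr 1
  exact sum_congr rfl fun l _ => by rw [mul_div_assoc]

theorem ME (hJ : S_JM) (hP : S_POSV) (hZ : S_LZB) (hE : S_EQC) {d : ℝ → ℝ} (hd : Ad d) (k : Fin m → ℝ) {V : ℝ}
    {h : ℝ → Fin m → ℝ} (hh : ∀ᶠ T : ℝ in atTop, ∀ j, |h T j| ≤ T ^ ((1:ℝ) / 2)) {C : Fin m → Fin m → ℝ}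
    (hC : ∀ j l, Tendsto (fun T => rr (h T) (d T) j l / Real.log (1 / d T)) atTop (𝓝 (C j l)))
    (hV : ∀ i, |∑ l, k l * C i l| < V) :
    ∃ c : ℝ, 0 < c ∧ ∀ R : ℝ, 0 ≤ R → ∀ ε : ℝ, 0 < ε → ∀ᶠ T : ℝ in atTop, ∃ a : ℝ, c ≤ a ∧
      ∀ z : Fin m → ℂ, (∀ j, ‖z j‖ ≤ R) →
      ‖((Real.exp (-(SM.Lr k (h T) (d T))) : ℝ) : ℂ) * II k (h T) (d T) (EE V (h T) (d T) T) z - T * a * cexp (Qc C z)‖ ≤
        ε * T := by
  -- the small exponent
  obtain ⟨η, hη, hηV⟩ : ∃ η : ℝ, 0 < η ∧ ∀ i, |∑ l, k l * C i l| + η ≤ V := by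
    have h1 : ∀ᶠ η in 𝓝[>] (0:ℝ), ∀ i, |∑ l, k l * C i l| + η ≤ V := by
      refine eventually_all.2 fun i => ?_
      have h2 : ∀ᶠ η in 𝓝[>] (0:ℝ), η < V - |∑ l, k l * C i l| :=
        (eventually_lt_nhds (sub_pos.2 (hV i))).filter_mono nhdsWithin_le_nhds
      filter_upwards [h2] with η h3
      linarith
    obtain ⟨η, h3, h4⟩ := (h1.and self_mem_nhdsWithin).exists
    exact ⟨η, h4, h3⟩
  set K : ℝ := ∑ j, |k j| with hK
  have hK0 : 0 ≤ K := sum_nonneg fun j _ => abs_nonneg _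
  have hkK : ∀ j, |k j| ≤ K := fun j => single_le_sum (f := fun j => |k j|) (fun i _ => abs_nonneg _) (mem_univ j)
  set R' : ℝ := K + η + 1 with hR'
  have hR'0 : 0 < R' := by positivity
  obtain ⟨c, Cc, hc, hCc, hcC⟩ := hP m R' hR'0.le
  refine ⟨c, hc, fun R hR ε hε => ?_⟩
  set B : ℝ := (∑ j, ∑ l, R * R * |C j l / 2|) + 1 with hB
  have hB0 : 0 < Real.exp B := Real.exp_pos _
  set ρ : ℝ := min 1 (ε / (8 * Cc * Real.exp B)) with hρ
  have hρ0 : 0 < ρ := lt_min one_pos (by positivity)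
  have hρ1 : ρ ≤ 1 := min_le_left _ _
  have hρ2 : Cc * (Real.exp B * (2 * ρ)) ≤ ε / 4 := by
    have h1 : ρ ≤ ε / (8 * Cc * Real.exp B) := min_le_right _ _
    rw [le_div_iff₀ (by positivity)] at h1
    nlinarith
  set ε' : ℝ := min (min 1 (c / 2)) (ε / (8 * Real.exp B)) with hε'
  have hε'0 : 0 < ε' := lt_min (lt_min one_pos (by positivity)) (by positivity)
  have hε'1 : ε' ≤ 1 := (min_le_left _ _).trans (min_le_left _ _)
  have hε'c : ε' ≤ c / 2 := (min_le_left _ _).trans (min_le_right _ _)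
  have hε'2 : Real.exp B * (2 * ε') ≤ ε / 4 := by
    have h1 : ε' ≤ ε / (8 * Real.exp B) := min_le_right _ _
    rw [le_div_iff₀ (by positivity)] at h1
    nlinarith
  obtain ⟨η₁, hη₁, hEq⟩ := hE m R' hR'0.le ε' hε'0
  have hD0 : 0 < 2 * K * |V| + K ^ 2 + 2 := by positivity
  have g1 := (hJ m R' (2 * K * |V| + K ^ 2 + 2) hR'0 hD0 ε' hε'0).app hd
  have g3 : ∀ᶠ T in atTop, R / (2 * sc (d T)) ≤ min 1 η₁ := by
    have h1 : Tendsto (fun T => R / (2 * sc (d T))) atTop (𝓝 0) :=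
      ((sc_tend hd).const_mul_atTop (by norm_num : (0:ℝ) < 2)).const_div_atTop R
    exact h1.eventually_le_const (lt_min one_pos hη₁)
  have g4 := qf_close hC hR hρ0
  have g5 : ∀ᶠ T in atTop, (m : ℝ) * R * (|V| + K) ≤ sc (d T) := (sc_tend hd).eventually_ge_atTop _
  have g6 : ∀ᶠ T in atTop, ∀ i, η ^ 2 / 2 ≤ 2 * η * V - 2 * η * (|ctr k (h T) (d T) i| / Real.log (1 / d T)) -
      (η + m * (R / (2 * sc (d T)))) ^ 2 := by
    refine eventually_all.2 fun i => ?_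
    have h1 : Tendsto (fun T => R / (2 * sc (d T))) atTop (𝓝 0) :=
      ((sc_tend hd).const_mul_atTop (by norm_num : (0:ℝ) < 2)).const_div_atTop R
    have h2 : Tendsto (fun T => 2 * η * V - 2 * η * (|ctr k (h T) (d T) i| / Real.log (1 / d T)) -
      (η + m * (R / (2 * sc (d T)))) ^ 2) atTop (𝓝 (2 * η * V - 2 * η * |∑ l, k l * C i l| - (η + m * 0) ^ 2)) :=
      (tendsto_const_nhds.sub ((ctr_tend hd hC k i).const_mul (2 * η))).sub
        (((h1.const_mul (m : ℝ)).const_add η).pow 2)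
    refine h2.eventually_const_le ?_
    have h3 := hηV i
    nlinarith
  have g7 := (Ev.small (C := 2 ^ (2 * (η * V)) * (2 * m * (Cc + 1))) (c := η ^ 2 / 2) (e := ε / 4)
    (by positivity) (by positivity)).app hd
  have g8 := (Ev.small (C := 1) (c := 1) (e := ε / 4) one_pos (by positivity)).app hd
  have g9 := (Ev.of_le (d := 1 / 16) (by norm_num)).app hd
  filter_upwards [g1, g3, g4, g5, g6, g7, g8, g9, hd.pos, hh, eventually_gt_atTop 0] with T g1 g3 g4 g5 g6 g7 g8 g9 h0 hhT hT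
  obtain ⟨N, n1, n2, n3, n4, n5⟩ := g1 (h T) hhT
  set δ : ℝ := d T with hδ
  set H : Fin m → ℝ := h T with hH
  have n4' : ∀ t ∈ N, ∀ j, 0 < mz δ (t + H j) := fun t ht j => norm_pos_iff.2 (n4 t ht j)
  have hsp := sc_pos h0 g9
  obtain ⟨hCu, hcl⟩ := hcC H
  have hr1 : R / (2 * sc δ) ≤ 1 := g3.trans (min_le_left _ _)
  have hr2 : R / (2 * sc δ) ≤ η₁ := g3.trans (min_le_right _ _)
  have hkn : ∀ j : Fin m, ‖(SM.cc k j : ℂ)‖ ≤ R' := by
    intro j
    unfold SM.cc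
    rw [Complex.norm_real, Real.norm_eq_abs]
    have := hkK j
    rw [hR']
    linarith
  have hn0 : ∀ j : Fin m, |(((fun _ => 0 : Fin m → ℤ) j : ℤ) : ℝ)| ≤ R' := fun j => by simpa using hR'0.le
  obtain ⟨a, ha1, ha2⟩ := hcl k fun j => by have := hkK j; rw [hR']; linarith
  have ha2' : aV (SM.cc k) (SM.cc k) H = a := ha2
  have hboundC : ∀ (κ : Fin m → ℝ) (a' : ℝ), (∀ j : Fin m, ‖(SM.cc κ j : ℂ)‖ ≤ R') → 0 ≤ a' →
      aV (SM.cc κ) (SM.cc κ) H = a' → a' ≤ Cc := by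
    intro κ a' h1 h2 h3
    have h4 := hCu (SM.cc κ) (SM.cc κ) h1 h1
    rw [h3, Complex.norm_real, Real.norm_of_nonneg h2] at h4
    exact h4
  have ha3 : a ≤ Cc := hboundC k a hkn (hc.le.trans ha1) ha2'
  refine ⟨a, ha1, fun z hz => ?_⟩
  -- real exponents
  have hI : ∀ κ : Fin m → ℝ, (∀ j, |κ j - k j| ≤ η + R / (2 * sc δ)) → IntegrableOn (fun t => SM.G κ H δ t) N ∧
      Real.exp (-(SM.Lr κ H δ)) * (∫ t in N, SM.G κ H δ t) ≤ (Cc + 1) * T := by
    intro κ hκ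
    have hκR : ∀ j, |κ j| ≤ R' := by
      intro j
      have h1 := abs_add_le (κ j - k j) (k j)
      rw [sub_add_cancel] at h1
      have h2 := hκ j
      have h3 := hkK j
      rw [hR']
      linarith
    have hκn : ∀ j : Fin m, ‖(SM.cc κ j : ℂ)‖ ≤ R' := by
      intro j
      unfold SM.cc
      rw [Complex.norm_real, Real.norm_eq_abs]
      exact hκR j
    obtain ⟨a', hb1, hb2⟩ := hcl κ hκR
    have hb2' : aV (SM.cc κ) (SM.cc κ) H = a' := hb2
    have hb3 : a' ≤ Cc := hboundC κ a' hκn (hc.le.trans hb1) hb2'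
    have hf := SM.real_form (k := κ) (h := H) (δ := δ) (T := T) (a := a') (ε := ε') (N := N) hT (hc.le.trans hb1) hb2'
      (n5 (SM.cc κ) (fun _ => 0) hκn hn0)
    constructor
    · by_contra hcon
      have h2 : ∫ t in N, SM.G κ H δ t = 0 := integral_undef hcon
      rw [h2, mul_zero, zero_sub, abs_neg] at hf
      have h3 := le_abs_self (T * a')
      nlinarith
    · have h2 := (abs_le.1 hf).2
      nlinarith
  have htr := trunc hZ h0 g9 hT n1 n2 n4' (V := V) (R := R) (η := η) (Ca := Cc + 1) (z := z) hη hR hz (by linarith) n3 hI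
    g5 g6
  -- the set `N`
  have hbk : ∀ j, ‖bb k δ z j - (k j : ℂ)‖ ≤ R / (2 * sc δ) := by
    intro j
    unfold bb
    rw [add_sub_cancel_left, norm_div, Complex.norm_real, Real.norm_of_nonneg (by positivity)]
    exact div_le_div_of_nonneg_right (hz j) (by positivity)
  have hbn : ∀ j, ‖bb k δ z j‖ ≤ R' := by
    intro j
    have h2 := norm_add_le (bb k δ z j - (k j : ℂ)) (k j : ℂ)
    rw [sub_add_cancel, Complex.norm_real, Real.norm_eq_abs] at h2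
    have h3 := hbk j
    have h4 := hkK j
    rw [hR']
    linarith
  have hbη : ∀ j, ‖bb k δ z j - (SM.cc k j : ℂ)‖ ≤ η₁ := fun j => (hbk j).trans hr2
  have hab := hEq (bb k δ z) (bb k δ z) (SM.cc k) (SM.cc k) hbn hbn hkn hkn hbη hbη H
  rw [ha2'] at hab
  have hjb := n5 (bb k δ z) (fun _ => 0) hbn hn0
  rw [SM.sp_zero, SM.sm_zero] at hjb
  have hq4 := g4 z hz
  have hqB : ‖qf H δ z‖ ≤ B := by
    have h1 := norm_add_le (qf H δ z - Qc C z) (Qc C z)
    rw [sub_add_cancel] at h1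
    have h2 := Qc_le C hR z hz
    rw [hB]
    linarith
  have hm := main_N (C := C) h0 g9 hT n1 n4' (hc.le.trans ha1) ha3 hρ1 hjb hab hqB hq4
  have e1 : ((Real.exp (-(SM.Lr k H δ)) : ℝ) : ℂ) * II k H δ (EE V H δ T) z - T * a * cexp (Qc C z) =
      (((Real.exp (-(SM.Lr k H δ)) : ℝ) : ℂ) * II k H δ (EE V H δ T) z -
        ((Real.exp (-(SM.Lr k H δ)) : ℝ) : ℂ) * II k H δ N z) +
      (((Real.exp (-(SM.Lr k H δ)) : ℝ) : ℂ) * II k H δ N z - T * a * cexp (Qc C z)) := by ring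
  rw [e1]
  refine (norm_add_le _ _).trans ((add_le_add htr hm).trans ?_)
  have e2 : 2 ^ (2 * (η * V)) * (2 * m * (Cc + 1)) * δ ^ (η ^ 2 / 2) + δ ≤ ε / 2 := by
    rw [Real.rpow_one, one_mul] at g8
    linarith
  have e3 : (2 ^ (2 * (η * V)) * (2 * m * (Cc + 1)) * δ ^ (η ^ 2 / 2) + δ) +
      (Real.exp B * (2 * ε') + Cc * (Real.exp B * (2 * ρ))) ≤ ε :=
    (add_le_add e2 (add_le_add hε'2 hρ2)).trans (le_of_eq (by ring))
  calc _ = ((2 ^ (2 * (η * V)) * (2 * m * (Cc + 1)) * δ ^ (η ^ 2 / 2) + δ) +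
        (Real.exp B * (2 * ε') + Cc * (Real.exp B * (2 * ρ)))) * T := by ring
    _ ≤ ε * T := mul_le_mul_of_nonneg_right e3 hT.le

/-- the limits of the exponential moments -/
theorem mgf (hJ : S_JM) (hP : S_POSV) (hZ : S_LZB) (hE : S_EQC) {d : ℝ → ℝ} (hd : Ad d) (k : Fin m → ℝ) {V : ℝ}
    {h : ℝ → Fin m → ℝ} (hh : ∀ᶠ T : ℝ in atTop, ∀ j, |h T j| ≤ T ^ ((1:ℝ) / 2)) {C : Fin m → Fin m → ℝ}
    (hC : ∀ j l, Tendsto (fun T => rr (h T) (d T) j l / Real.log (1 / d T)) atTop (𝓝 (C j l)))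
    (hV : ∀ i, |∑ l, k l * C i l| < V) :
    (∀ᶠ T in atTop, II k (h T) (d T) (EE V (h T) (d T) T) 0 ≠ 0) ∧
    ∀ z : Fin m → ℂ, Tendsto (fun T => II k (h T) (d T) (EE V (h T) (d T) T) z /
      II k (h T) (d T) (EE V (h T) (d T) T) 0) atTop (𝓝 (cexp (Qc C z))) := by
  obtain ⟨c, hc, H⟩ := ME hJ hP hZ hE hd k hh hC hV
  have hQ0 : Qc C (0 : Fin m → ℂ) = 0 := by
    unfold Qc
    simp
  constructor
  · filter_upwards [H 0 le_rfl (c / 2) (by positivity), eventually_gt_atTop 0] with T hT hT0 hcon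
    obtain ⟨a, ha, h1⟩ := hT
    have h2 := h1 0 (fun j => by simp)
    rw [hcon, hQ0, Complex.exp_zero, mul_zero, zero_sub, norm_neg, mul_one, norm_mul, Complex.norm_real,
      Complex.norm_real, Real.norm_of_nonneg hT0.le, Real.norm_of_nonneg (hc.le.trans ha)] at h2
    nlinarith
  intro z
  rw [Metric.tendsto_nhds]
  intro ε hε
  set R : ℝ := ∑ j, ‖z j‖ with hR
  have hR0 : 0 ≤ R := sum_nonneg fun j _ => norm_nonneg _
  have hzR : ∀ j, ‖z j‖ ≤ R := fun j => single_le_sum (f := fun j => ‖z j‖) (fun i _ => norm_nonneg _) (mem_univ j)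
  set q : ℝ := ‖cexp (Qc C z)‖ with hq
  have hq0 : 0 ≤ q := norm_nonneg _
  set ε₁ : ℝ := min (c / 2) (c * ε / (4 * (1 + q))) with hε₁
  have hε₁0 : 0 < ε₁ := lt_min (by positivity) (by positivity)
  have hε₁c : ε₁ ≤ c / 2 := min_le_left _ _
  have hε₁2 : (1 + q) * ε₁ ≤ c * ε / 4 := by
    have h1 : ε₁ ≤ c * ε / (4 * (1 + q)) := min_le_right _ _
    rw [le_div_iff₀ (by positivity)] at h1
    linarith
  filter_upwards [H R hR0 ε₁ hε₁0, eventually_gt_atTop 0] with T hT hT0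
  obtain ⟨a, ha, h1⟩ := hT
  have h2 := h1 z hzR
  have h3 := h1 0 (fun j => by simpa using hR0)
  rw [hQ0, Complex.exp_zero, mul_one] at h3
  set E : ℂ := ((Real.exp (-(SM.Lr k (h T) (d T))) : ℝ) : ℂ) with hEd
  set u : ℂ := II k (h T) (d T) (EE V (h T) (d T) T) z with hu
  set v : ℂ := II k (h T) (d T) (EE V (h T) (d T) T) 0 with hv
  have hE0 : E ≠ 0 := by
    rw [hEd]
    exact_mod_cast (Real.exp_pos _).ne'
  have h4 : c / 2 * T ≤ ‖E * v‖ := by
    have g1 := norm_sub_norm_le ((T : ℂ) * a) ((T : ℂ) * a - E * v)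
    rw [sub_sub_cancel] at g1
    have g2 : ‖(T : ℂ) * a - E * v‖ ≤ ε₁ * T := by rw [norm_sub_rev]; exact h3
    have g3 : ‖(T : ℂ) * (a : ℂ)‖ = T * a := by
      rw [norm_mul, Complex.norm_real, Complex.norm_real, Real.norm_of_nonneg hT0.le,
        Real.norm_of_nonneg (hc.le.trans ha)]
    rw [g3] at g1
    nlinarith
  have h5 : 0 < ‖E * v‖ := lt_of_lt_of_le (by positivity) h4
  have hEv : E * v ≠ 0 := norm_pos_iff.1 h5
  have hv0 : v ≠ 0 := fun h => hEv (by rw [h, mul_zero])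
  have h6 : u / v - cexp (Qc C z) = ((E * u - T * a * cexp (Qc C z)) - cexp (Qc C z) * (E * v - T * a)) / (E * v) := by
    field_simp
    ring
  rw [dist_eq_norm, h6, norm_div, div_lt_iff₀ h5]
  have h7 : ‖(E * u - T * a * cexp (Qc C z)) - cexp (Qc C z) * (E * v - T * a)‖ ≤ (1 + q) * ε₁ * T := by
    refine (norm_sub_le _ _).trans ?_
    rw [norm_mul]
    have := mul_le_mul_of_nonneg_left h3 hq0
    linarith
  calc _ ≤ (1 + q) * ε₁ * T := h7
    _ ≤ c * ε / 4 * T := mul_le_mul_of_nonneg_right hε₁2 hT0.le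
    _ < ε * (c / 2 * T) := by
        have : 0 < c * ε * T := by positivity
        linarith
    _ ≤ ε * ‖E * v‖ := mul_le_mul_of_nonneg_left h4 hε.le

end Run7.h701.T5
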