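import Pool.Agent.Run7.h701.T5.D

/-!
# T5 (project of helper291), helper701: the convergence in law
-/

set_option autoImplicit false

namespace Run7.h701.T5

open Finset Filter MeasureTheory Topology Complex ProbabilityTheory
open Pool.Agent.N748.MG Pool.Agent.N748.MJ
open Run7.h291.WN (S_EQC)
open Run7.h651.WN (ES)

variable {m : ℕ}

/-- the total mass -/
noncomputable def MM (k h : Fin m → ℝ) (δ : ℝ) (S : Set ℝ) : ℝ := ∫ t in S, SM.G k h δ t

theorem II_zero (k h : Fin m → ℝ) (δ : ℝ) (S : Set ℝ) : II k h δ S 0 = ((MM k h δ S : ℝ) : ℂ) := by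
  unfold II MM
  simp only [Pi.zero_apply, zero_mul, sum_const_zero, Complex.exp_zero, mul_one]
  exact integral_complex_ofReal

/-- the vector of the normalised logarithms -/
noncomputable def yv (k h : Fin m → ℝ) (δ t : ℝ) : ES m := WithLp.toLp 2 fun j => yy k h δ t j

theorem yv_meas (k h : Fin m → ℝ) {δ : ℝ} (h1 : δ ≤ 1 / 16) : Measurable fun t => yv k h δ t := by
  unfold yv
  refine (WithLp.measurable_toLp 2 _).comp ?_
  rw [measurable_pi_iff]
  intro j
  exact yy_meas k h h1 j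

/-- the law -/
noncomputable def mu (k h : Fin m → ℝ) (δ : ℝ) (S : Set ℝ) : Measure (ES m) :=
  ((volume.restrict S).withDensity (fun t => ENNReal.ofReal (SM.G k h δ t / MM k h δ S))).map (fun t => yv k h δ t)

theorem int_mu {E : Type*} [NormedAddCommGroup E] [NormedSpace ℝ E] (k h : Fin m → ℝ) {δ : ℝ}
    (h1 : δ ≤ 1 / 16) (S : Set ℝ) {f : ES m → E} (hf : StronglyMeasurable f) :
    ∫ x, f x ∂(mu k h δ S) = ∫ t in S, (SM.G k h δ t / MM k h δ S) • f (yv k h δ t) := by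
  have hM0 : 0 ≤ MM k h δ S := integral_nonneg fun t => SM.G_nn _ _ _ _
  unfold mu
  rw [integral_map (yv_meas k h h1).aemeasurable hf.aestronglyMeasurable]
  have h2 : (fun t => ENNReal.ofReal (SM.G k h δ t / MM k h δ S)) =
      fun t => (((SM.G k h δ t / MM k h δ S).toNNReal : NNReal) : ENNReal) := rfl
  rw [h2, integral_withDensity_eq_integral_smul ((G_meas k h h1).div_const _).real_toNNReal]
  refine integral_congr_ae (Eventually.of_forall fun t => ?_)
  show (SM.G k h δ t / MM k h δ S).toNNReal • f (yv k h δ t) = (SM.G k h δ t / MM k h δ S) • f (yv k h δ t)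
  rw [NNReal.smul_def, Real.coe_toNNReal _ (div_nonneg (SM.G_nn _ _ _ _) hM0)]

theorem mu_prob (k h : Fin m → ℝ) {δ : ℝ} (h1 : δ ≤ 1 / 16) {S : Set ℝ} (hM : MM k h δ S ≠ 0) :
    IsProbabilityMeasure (mu k h δ S) := by
  have hI : IntegrableOn (fun t => SM.G k h δ t) S := by
    by_contra hcon
    exact hM (integral_undef hcon)
  have hM0 : 0 ≤ MM k h δ S := integral_nonneg fun t => SM.G_nn _ _ _ _
  have h2 : IsProbabilityMeasure ((volume.restrict S).withDensity
      (fun t => ENNReal.ofReal (SM.G k h δ t / MM k h δ S))) := by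
    constructor
    rw [withDensity_apply _ MeasurableSet.univ, Measure.restrict_univ, ← ofReal_integral_eq_lintegral_ofReal]
    · rw [integral_div]
      show ENNReal.ofReal (MM k h δ S / MM k h δ S) = 1
      rw [div_self hM, ENNReal.ofReal_one]
    · exact hI.div_const _
    · exact Eventually.of_forall fun t => div_nonneg (SM.G_nn _ _ _ _) hM0
  unfold mu
  exact Measure.isProbabilityMeasure_map (yv_meas k h h1).aemeasurable

theorem inner_yv (k h : Fin m → ℝ) (δ t : ℝ) (ξ : ES m) :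
    inner ℝ (yv k h δ t) ξ = ∑ j, ξ j * yy k h δ t j := by
  rw [PiLp.inner_apply]
  refine sum_congr rfl fun j _ => ?_
  simp [yv]

theorem char_mu (k h : Fin m → ℝ) {δ : ℝ} (h1 : δ ≤ 1 / 16) (S : Set ℝ) (ξ : ES m) :
    charFun (mu k h δ S) ξ = II k h δ S (fun j => ((ξ j : ℝ) : ℂ) * I) / II k h δ S 0 := by
  rw [charFun_apply, int_mu k h h1 S, II_zero]
  · unfold II
    rw [div_eq_inv_mul, ← integral_const_mul]
    refine integral_congr_ae (Eventually.of_forall fun t => ?_)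
    show (SM.G k h δ t / MM k h δ S) • cexp ((inner ℝ (yv k h δ t) ξ : ℝ) * I) =
      ((MM k h δ S : ℝ) : ℂ)⁻¹ * (((SM.G k h δ t : ℝ) : ℂ) * cexp (∑ j, ((ξ j : ℝ) : ℂ) * I * ((yy k h δ t j : ℝ) : ℂ)))
    rw [inner_yv, Complex.real_smul]
    have e : (∑ j, ((ξ j : ℝ) : ℂ) * I * ((yy k h δ t j : ℝ) : ℂ)) = ((∑ j, ξ j * yy k h δ t j : ℝ) : ℂ) * I := by
      push_cast
      rw [sum_mul]
      exact sum_congr rfl fun j _ => by ring
    rw [e, Complex.ofReal_div]
    ring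
  · refine Measurable.stronglyMeasurable ?_
    refine Complex.measurable_exp.comp ?_
    refine Measurable.mul_const ?_ _
    refine Complex.measurable_ofReal.comp ?_
    exact (Continuous.inner continuous_id continuous_const).measurable

theorem Qc_im (C : Fin m → Fin m → ℝ) (ξ : Fin m → ℝ) :
    Qc C (fun j => ((ξ j : ℝ) : ℂ) * I) = ((-(∑ j, ∑ l, ξ j * C j l * ξ l) / 2 : ℝ) : ℂ) := by
  unfold Qc
  push_cast
  rw [neg_div, sum_div, ← sum_neg_distrib]
  refine sum_congr rfl fun j _ => ?_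
  rw [sum_div, ← sum_neg_distrib]
  refine sum_congr rfl fun l _ => ?_
  linear_combination ((ξ j : ℂ) * (ξ l : ℂ) * ((C j l : ℂ) / 2)) * Complex.I_sq

theorem quad_nn {d : ℝ → ℝ} (hd : Ad d) (k : Fin m → ℝ) {V : ℝ}
    {h : ℝ → Fin m → ℝ} {C : Fin m → Fin m → ℝ}
    (H0 : ∀ᶠ T in atTop, II k (h T) (d T) (EE V (h T) (d T) T) 0 ≠ 0)
    (H : ∀ z : Fin m → ℂ, Tendsto (fun T => II k (h T) (d T) (EE V (h T) (d T) T) z /
      II k (h T) (d T) (EE V (h T) (d T) T) 0) atTop (𝓝 (cexp (Qc C z)))) (ξ : Fin m → ℝ) :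
    0 ≤ ∑ j, ∑ l, ξ j * C j l * ξ l := by
  have h1 := (H (fun j => ((ξ j : ℝ) : ℂ) * I)).norm
  have h2 : ‖cexp (Qc C (fun j => ((ξ j : ℝ) : ℂ) * I))‖ ≤ 1 := by
    refine le_of_tendsto h1 ?_
    filter_upwards [H0, (Ev.of_le (d := 1 / 16) (by norm_num)).app hd] with T hT hd1
    rw [II_zero] at hT
    have hM : MM k (h T) (d T) (EE V (h T) (d T) T) ≠ 0 := by exact_mod_cast hT
    have hp := mu_prob k (h T) hd1 hM
    have hc := char_mu k (h T) hd1 (EE V (h T) (d T) T) (WithLp.toLp 2 ξ)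
    have e : (fun j => (((WithLp.toLp 2 ξ : ES m) j : ℝ) : ℂ) * I) = fun j => ((ξ j : ℝ) : ℂ) * I := rfl
    rw [e] at hc
    rw [← hc]
    exact norm_charFun_le_one _
  rw [Qc_im, Complex.norm_exp, Complex.ofReal_re, Real.exp_le_one_iff] at h2
  linarith

/-- the convergence in law -/
theorem weak {d : ℝ → ℝ} (hd : Ad d) (k : Fin m → ℝ) {V : ℝ}
    {h : ℝ → Fin m → ℝ} {C : Matrix (Fin m) (Fin m) ℝ} (hC : C.PosSemidef)
    (H0 : ∀ᶠ T in atTop, II k (h T) (d T) (EE V (h T) (d T) T) 0 ≠ 0)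
    (H : ∀ z : Fin m → ℂ, Tendsto (fun T => II k (h T) (d T) (EE V (h T) (d T) T) z /
      II k (h T) (d T) (EE V (h T) (d T) T) 0) atTop (𝓝 (cexp (Qc C z)))) (Ψ : ES m → ℝ) (hΨ : Continuous Ψ)
    (A : ℝ) (hA : ∀ y, |Ψ y| ≤ A) :
    Tendsto (fun T => (∫ t in EE V (h T) (d T) T, Ψ (yv k (h T) (d T) t) * SM.G k (h T) (d T) t) /
      MM k (h T) (d T) (EE V (h T) (d T) T)) atTop (𝓝 (∫ y, Ψ y ∂(multivariateGaussian 0 C))) := by
  classical
  refine tendsto_of_seq_tendsto fun u hu => ?_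
  set γ : ProbabilityMeasure (ES m) := ⟨multivariateGaussian 0 C, inferInstance⟩ with hγ
  set P : ℝ → Prop := fun T => MM k (h T) (d T) (EE V (h T) (d T) T) ≠ 0 ∧ d T ≤ 1 / 16 with hP
  have hPe : ∀ᶠ T in atTop, P T := by
    filter_upwards [H0, (Ev.of_le (d := 1 / 16) (by norm_num)).app hd] with T hT hd1
    rw [II_zero] at hT
    exact ⟨by exact_mod_cast hT, hd1⟩
  set ν : ℕ → ProbabilityMeasure (ES m) := fun n =>
    if hn : P (u n) then ⟨mu k (h (u n)) (d (u n)) (EE V (h (u n)) (d (u n)) (u n)), mu_prob k (h (u n)) hn.2 hn.1⟩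
    else γ with hν
  have hνe : ∀ᶠ n in atTop, (ν n : Measure (ES m)) = mu k (h (u n)) (d (u n)) (EE V (h (u n)) (d (u n)) (u n)) ∧
      P (u n) := by
    filter_upwards [hu.eventually hPe] with n hn
    have e : ν n = ⟨mu k (h (u n)) (d (u n)) (EE V (h (u n)) (d (u n)) (u n)), mu_prob k (h (u n)) hn.2 hn.1⟩ :=
      dif_pos hn
    rw [e]
    exact ⟨rfl, hn⟩
  have ht : Tendsto ν atTop (𝓝 γ) := by
    refine ProbabilityMeasure.tendsto_iff_tendsto_charFun.2 fun ξ => ?_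
    have e1 : charFun (γ : Measure (ES m)) ξ = cexp (Qc C (fun j => ((ξ j : ℝ) : ℂ) * I)) := by
      rw [hγ]
      show charFun (multivariateGaussian 0 C) ξ = _
      rw [charFun_multivariateGaussian hC, Qc_im C fun j => ξ j, inner_zero_right]
      congr 1
      have e2 : (ξ ⬝ᵥ C.mulVec ξ : ℝ) = ∑ j, ∑ l, ξ j * C j l * ξ l := by
        unfold dotProduct Matrix.mulVec dotProduct
        refine sum_congr rfl fun j _ => ?_
        rw [mul_sum]
        exact sum_congr rfl fun l _ => by ring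
      rw [e2]
      push_cast
      ring
    rw [e1]
    refine ((H (fun j => ((ξ j : ℝ) : ℂ) * I)).comp hu).congr' ?_
    filter_upwards [hνe] with n hn
    rw [hn.1, char_mu k (h (u n)) hn.2.2]
    rfl
  rw [ProbabilityMeasure.tendsto_iff_forall_integral_tendsto] at ht
  have h4 := ht (BoundedContinuousFunction.ofNormedAddCommGroup Ψ hΨ A hA)
  refine Tendsto.congr' ?_ h4
  filter_upwards [hνe] with n hn
  show ∫ x, Ψ x ∂(ν n : Measure (ES m)) =
    (∫ t in EE V (h (u n)) (d (u n)) (u n), Ψ (yv k (h (u n)) (d (u n)) t) * SM.G k (h (u n)) (d (u n)) t) /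
      MM k (h (u n)) (d (u n)) (EE V (h (u n)) (d (u n)) (u n))
  rw [hn.1, int_mu k (h (u n)) hn.2.2 _ hΨ.stronglyMeasurable, ← integral_div]
  refine integral_congr_ae (Eventually.of_forall fun t => ?_)
  show (SM.G k (h (u n)) (d (u n)) t / _) * Ψ _ = _
  ring

/-- the theorem -/
theorem main_of (hJ : S_JM) (hP : S_POSV) (hZ : S_LZB) (hE : S_EQC) {d : ℝ → ℝ} (hd : Ad d) (k : Fin m → ℝ) {V : ℝ}
    {h : ℝ → Fin m → ℝ} (hh : ∀ᶠ T : ℝ in atTop, ∀ j, |h T j| ≤ T ^ ((1:ℝ) / 2)) {C : Matrix (Fin m) (Fin m) ℝ}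
    (hC : ∀ j l, Tendsto (fun T => rr (h T) (d T) j l / Real.log (1 / d T)) atTop (𝓝 (C j l)))
    (hV : ∀ i, |∑ l, k l * C i l| < V) :
    C.PosSemidef ∧ (∀ᶠ T in atTop, 0 < MM k (h T) (d T) (EE V (h T) (d T) T)) ∧
    (∀ z : Fin m → ℂ, Tendsto (fun T => II k (h T) (d T) (EE V (h T) (d T) T) z /
      II k (h T) (d T) (EE V (h T) (d T) T) 0) atTop (𝓝 (cexp (Qc C z)))) ∧
    ∀ Ψ : ES m → ℝ, Continuous Ψ → (∃ A : ℝ, ∀ y, |Ψ y| ≤ A) →
      Tendsto (fun T => (∫ t in EE V (h T) (d T) T, Ψ (yv k (h T) (d T) t) * SM.G k (h T) (d T) t) /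
        MM k (h T) (d T) (EE V (h T) (d T) T)) atTop (𝓝 (∫ y, Ψ y ∂(multivariateGaussian 0 C))) := by
  obtain ⟨H0, H⟩ := mgf hJ hP hZ hE hd k hh hC hV
  have hsymm : ∀ j l, C j l = C l j := by
    intro j l
    refine tendsto_nhds_unique (hC j l) ((hC l j).congr' ?_)
    filter_upwards [hd.pos] with T hT
    rw [rr_symm hT]
  have hPSD : C.PosSemidef := by
    refine Matrix.PosSemidef.of_dotProduct_mulVec_nonneg ?_ fun x => ?_
    · ext j l
      rw [Matrix.conjTranspose_apply, star_trivial]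
      exact hsymm l j
    · have h1 := quad_nn hd k H0 H x
      rw [star_trivial]
      have e2 : (x ⬝ᵥ C.mulVec x : ℝ) = ∑ j, ∑ l, x j * C j l * x l := by
        unfold dotProduct Matrix.mulVec dotProduct
        refine sum_congr rfl fun j _ => ?_
        rw [mul_sum]
        exact sum_congr rfl fun l _ => by ring
      rw [e2]
      exact h1
  refine ⟨hPSD, ?_, H, fun Ψ hΨ ⟨A, hA⟩ => weak hd k hPSD H0 H Ψ hΨ A hA⟩
  filter_upwards [H0] with T hT
  rw [II_zero] at hT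
  have hM : MM k (h T) (d T) (EE V (h T) (d T) T) ≠ 0 := by exact_mod_cast hT
  have hM0 : 0 ≤ MM k (h T) (d T) (EE V (h T) (d T) T) := integral_nonneg fun t => SM.G_nn _ _ _ _
  exact lt_of_le_of_ne hM0 hM.symm

end Run7.h701.T5
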